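import Mathlib

/-!
# C*-algebra preliminaries: positivity, square roots, range projections, a path
-/

set_option autoImplicit false

open scoped unitInterval Topology

namespace Pool.Agent.Lib.MP_8f60dc_al

noncomputable section

variable {B : Type*} [NonUnitalCStarAlgebra B]

/-- Positive elements. -/
def Pos (a : B) : Prop := ∃ b, a = star b * b

theorem pos_iff (a : B) :
    Pos a ↔ @LE.le B (CStarAlgebra.spectralOrder B).toLE 0 a := by
  let _ := CStarAlgebra.spectralOrder B
  have := CStarAlgebra.spectralOrderedRing B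
  exact CStarAlgebra.nonneg_iff_eq_star_mul_self.symm

theorem Pos.star_mul_self (b : B) : Pos (star b * b) := ⟨b, rfl⟩

theorem Pos.sa {a : B} (h : Pos a) : star a = a := by
  obtain ⟨b, rfl⟩ := h
  simp

theorem Pos.tsum {ι : Type*} {f : ι → B} (hf : ∀ i, Pos (f i)) : Pos (∑' i, f i) := by
  let _ := CStarAlgebra.spectralOrder B
  have := CStarAlgebra.spectralOrderedRing B
  rw [pos_iff]
  exact tsum_nonneg fun i => (pos_iff _).mp (hf i)

theorem Pos.smul {a : B} (h : Pos a) {c : ℝ} (hc : 0 ≤ c) : Pos (c • a) := by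
  obtain ⟨b, rfl⟩ := h
  refine ⟨Real.sqrt c • b, ?_⟩
  rw [star_smul, smul_mul_smul_comm, star_trivial (Real.sqrt c), Real.mul_self_sqrt hc]

theorem exists_sqrt {h : B} (hh : Pos h) :
    ∃ k : B, Pos k ∧ k * k = h ∧ ∀ x, x * h = h * x → x * k = k * x := by
  let _ := CStarAlgebra.spectralOrder B
  have := CStarAlgebra.spectralOrderedRing B
  have h0 : 0 ≤ h := (pos_iff h).mp hh
  refine ⟨CFC.sqrt h, (pos_iff _).mpr (CFC.sqrt_nonneg h), CFC.sqrt_mul_sqrt_self h, ?_⟩
  intro x hx
  have h1 : Commute h x := hx.symm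
  exact (Commute.cfcₙ_nnreal h1 NNReal.sqrt).symm

theorem sqrt_unique {k k' : B} (hk : Pos k) (hk' : Pos k') (h : k * k = k' * k') : k = k' := by
  let _ := CStarAlgebra.spectralOrder B
  have := CStarAlgebra.spectralOrderedRing B
  have h0 : 0 ≤ k := (pos_iff k).mp hk
  have h1 : 0 ≤ k' := (pos_iff k').mp hk'
  exact (CFC.mul_self_eq_mul_self_iff k k').mp h

/-- The functions of the path. -/
def phi (t x : ℝ) : ℝ := x ^ 2 / ((1 - t) + t * |x|)

theorem phi_zero (x : ℝ) : phi 0 x = x ^ 2 := by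
  unfold phi
  simp

theorem phi_one (x : ℝ) : phi 1 x = |x| := by
  unfold phi
  rcases eq_or_ne x 0 with h | h
  · simp [h]
  · have : |x| ≠ 0 := abs_ne_zero.mpr h
    rw [sub_self, zero_add, one_mul, ← sq_abs]
    field_simp

theorem phi_at_zero (t : ℝ) : phi t 0 = 0 := by
  unfold phi
  simp

theorem phi_den {t x : ℝ} (ht0 : 0 ≤ t) (ht1 : t ≤ 1) : 0 ≤ (1 - t) + t * |x| :=
  add_nonneg (by linarith) (mul_nonneg ht0 (abs_nonneg x))

theorem phi_mul {t x : ℝ} (ht0 : 0 ≤ t) (ht1 : t ≤ 1) :
    (1 - t) * phi t x + t * (phi t x * |x|) = x ^ 2 := by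
  have h : (1 - t) * phi t x + t * (phi t x * |x|) = phi t x * ((1 - t) + t * |x|) := by ring
  rw [h]
  unfold phi
  rcases (phi_den (x := x) ht0 ht1).eq_or_lt with h0 | h0
  · rw [← h0]
    have h1 : (0:ℝ) ≤ t * |x| := mul_nonneg ht0 (abs_nonneg x)
    have h2 : 1 - t = 0 := by linarith
    have h3 : t = 1 := by linarith
    have h4 : |x| = 0 := by
      rw [h3] at h0
      linarith
    have h5 : x = 0 := abs_eq_zero.mp h4
    simp [h5]
  · field_simp

theorem phi_lip {M t s x : ℝ} (ht0 : 0 ≤ t) (ht1 : t ≤ 1) (hs0 : 0 ≤ s) (hs1 : s ≤ 1)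
    (hx : |x| ≤ M) : |phi t x - phi s x| ≤ (1 + M) * (1 + M) ^ 2 * |t - s| := by
  have hM : 0 ≤ M := (abs_nonneg x).trans hx
  have key : ∀ r : ℝ, 0 ≤ r → r ≤ 1 → |x| ≤ (1 + M) * ((1 - r) + r * |x|) := by
    intro r hr0 hr1
    rcases le_total |x| 1 with h | h
    · nlinarith [abs_nonneg x, mul_nonneg hr0 (abs_nonneg x), mul_nonneg hM
        (add_nonneg (sub_nonneg.mpr hr1) (mul_nonneg hr0 (abs_nonneg x)))]
    · have h1 : 1 ≤ (1 - r) + r * |x| := by nlinarith
      nlinarith
  rcases eq_or_ne x 0 with h0 | h0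
  · subst h0
    rw [phi_at_zero, phi_at_zero]
    simp only [sub_self, abs_zero]
    positivity
  have hax : 0 < |x| := abs_pos.mpr h0
  have hDt : 0 < (1 - t) + t * |x| := by
    rcases (phi_den (x := x) ht0 ht1).eq_or_lt with h | h
    · have := key t ht0 ht1
      rw [← h] at this
      linarith
    · exact h
  have hDs : 0 < (1 - s) + s * |x| := by
    rcases (phi_den (x := x) hs0 hs1).eq_or_lt with h | h
    · have := key s hs0 hs1
      rw [← h] at this
      linarith
    · exact h
  have e : phi t x - phi s x =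
      (|x| / ((1 - t) + t * |x|)) * (|x| / ((1 - s) + s * |x|)) * ((t - s) * (1 - |x|)) := by
    have e0 : ∀ y c d : ℝ, c ≠ 0 → d ≠ 0 →
        y ^ 2 / c - y ^ 2 / d = (y / c) * (y / d) * (d - c) := by
      intro y c d hc hd
      field_simp
    unfold phi
    rw [← sq_abs, e0 _ _ _ hDt.ne' hDs.ne']
    congr 1
    ring
  rw [e, abs_mul, abs_mul, abs_mul]
  have h1 : |(|x| / ((1 - t) + t * |x|))| ≤ 1 + M := by
    rw [abs_of_nonneg (by positivity), div_le_iff₀ hDt]
    exact key t ht0 ht1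
  have h2 : |(|x| / ((1 - s) + s * |x|))| ≤ 1 + M := by
    rw [abs_of_nonneg (by positivity), div_le_iff₀ hDs]
    exact key s hs0 hs1
  have h3 : |(1 - |x|)| ≤ 1 + M := by
    rw [abs_le]
    constructor <;> linarith
  calc |(|x| / ((1 - t) + t * |x|))| * |(|x| / ((1 - s) + s * |x|))| * (|t - s| * |(1 - |x|)|)
      ≤ (1 + M) * (1 + M) * (|t - s| * (1 + M)) := by
        apply mul_le_mul
        · exact mul_le_mul h1 h2 (abs_nonneg _) (by positivity)
        · exact mul_le_mul_of_nonneg_left h3 (abs_nonneg _)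
        · positivity
        · positivity
    _ = (1 + M) * (1 + M) ^ 2 * |t - s| := by ring

theorem phi_cont {t : ℝ} (ht0 : 0 ≤ t) (ht1 : t ≤ 1) : Continuous (phi t) := by
  rcases ht1.eq_or_lt with h | h
  · subst h
    have : phi 1 = fun x => |x| := funext phi_one
    rw [this]
    exact continuous_abs
  · unfold phi
    apply Continuous.div (by fun_prop) (by fun_prop)
    intro x
    have : 0 < (1 - t) + t * |x| := add_pos_of_pos_of_nonneg (by linarith)
      (mul_nonneg ht0 (abs_nonneg x))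
    exact this.ne'

theorem Pos.quasi {k : B} (hk : Pos k) {x : ℝ} (hx : x ∈ quasispectrum ℝ k) : 0 ≤ x := by
  let _ := CStarAlgebra.spectralOrder B
  have := CStarAlgebra.spectralOrderedRing B
  exact quasispectrum_nonneg_of_nonneg k ((pos_iff k).mp hk) x hx

theorem exists_path {k : B} (hk : Pos k) :
    ∃ c : C(I, B), c 0 = k * k ∧ c 1 = k ∧
      (∀ t : I, (1 - (t : ℝ)) • c t + (t : ℝ) • (c t * k) = k * k) ∧
      ∀ x, x * k = k * x → ∀ t, x * c t = c t * x := by
  have hsa : IsSelfAdjoint k := hk.sa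
  have hsq : cfcₙ (fun x : ℝ => x ^ 2) k = k * k := by
    have e : (fun x : ℝ => x ^ 2) = fun x => (id x) * (id x) := by
      funext x
      simp [pow_two]
    rw [e, cfcₙ_mul (id : ℝ → ℝ) id k, cfcₙ_id ℝ k]
  -- a bound of the quasispectrum
  obtain ⟨M, hM⟩ : ∃ M : ℝ, ∀ x ∈ quasispectrum ℝ k, |x| ≤ M := by
    have hc : IsCompact (quasispectrum ℝ k) := quasispectrum.isCompact k
    obtain ⟨M, hM⟩ := hc.isBounded.exists_norm_le
    exact ⟨M, fun x hx => hM x hx⟩
  have hM0 : 0 ≤ M := (abs_nonneg _).trans (hM 0 (quasispectrum.zero_mem ℝ k))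
  have hcont : Continuous fun t : I => cfcₙ (phi (t : ℝ)) k := by
    rw [continuous_iff_continuousAt]
    intro t0
    apply continuousAt_cfcₙ_fun
    · rw [Metric.tendstoUniformlyOn_iff]
      intro ε hε
      set L := (1 + M) * (1 + M) ^ 2 with hL
      have hL0 : 0 < L := by positivity
      have : ∀ᶠ t : I in 𝓝 t0, dist t t0 < ε / L := Metric.ball_mem_nhds t0 (by positivity)
      filter_upwards [this] with t ht x hx
      have h1 := phi_lip (M := M) t0.2.1 t0.2.2 t.2.1 t.2.2 (hM x hx)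
      rw [Real.dist_eq]
      refine lt_of_le_of_lt h1 ?_
      have h2 : |(t0 : ℝ) - t| < ε / L := by
        rw [abs_sub_comm]
        exact ht
      calc L * |(t0 : ℝ) - t| < L * (ε / L) := mul_lt_mul_of_pos_left h2 hL0
        _ = ε := by field_simp
    · exact Filter.Eventually.of_forall fun t => (phi_cont t.2.1 t.2.2).continuousOn
    · exact Filter.Eventually.of_forall fun t => phi_at_zero _
  refine ⟨⟨fun t => cfcₙ (phi (t : ℝ)) k, hcont⟩, ?_, ?_, ?_, ?_⟩
  · change cfcₙ (phi ((0 : I) : ℝ)) k = k * k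
    have : phi ((0 : I) : ℝ) = fun x => x ^ 2 := by
      funext x
      simpa using phi_zero x
    rw [this, hsq]
  · change cfcₙ (phi ((1 : I) : ℝ)) k = k
    have : cfcₙ (phi ((1 : I) : ℝ)) k = cfcₙ (id : ℝ → ℝ) k := by
      apply cfcₙ_congr
      intro x hx
      have h0 := hk.quasi hx
      have h1 : phi ((1 : I) : ℝ) x = |x| := by simpa using phi_one x
      rw [h1, abs_of_nonneg h0]
      rfl
    rw [this, cfcₙ_id ℝ k]
  · intro t
    change (1 - (t : ℝ)) • cfcₙ (phi (t : ℝ)) k + (t : ℝ) • (cfcₙ (phi (t : ℝ)) k * k) = k * k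
    have hc := (phi_cont t.2.1 t.2.2).continuousOn (s := quasispectrum ℝ k)
    have h0 := phi_at_zero (t : ℝ)
    have e1 : cfcₙ (phi (t : ℝ)) k * k = cfcₙ (fun x => phi (t : ℝ) x * x) k := by
      conv_lhs => rw [show cfcₙ (phi (t : ℝ)) k * k =
        cfcₙ (phi (t : ℝ)) k * cfcₙ (id : ℝ → ℝ) k by rw [cfcₙ_id ℝ k]]
      rw [← cfcₙ_mul (phi (t : ℝ)) id k]
      rfl
    rw [e1, ← cfcₙ_smul (1 - (t : ℝ)) (phi (t : ℝ)) k, ← cfcₙ_smul (t : ℝ) _ k,
      ← cfcₙ_add (fun x => (1 - (t : ℝ)) • phi (t : ℝ) x) (fun x => (t : ℝ) • (phi (t : ℝ) x * x)) k,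
      ← hsq]
    apply cfcₙ_congr
    intro x hx
    have h2 := hk.quasi hx
    have h3 := phi_mul (x := x) t.2.1 t.2.2
    rw [abs_of_nonneg h2] at h3
    simpa [smul_eq_mul] using h3
  · intro x hx t
    have h1 : Commute k x := hx.symm
    exact (Commute.cfcₙ_real h1 (phi (t : ℝ))).symm

/-- Range projection of an idempotent. -/
theorem exists_rp {Q : B} (hQ : Q * Q = Q) :
    ∃ l : B, star l = l ∧ l * Q = Q ∧ Q * l = l := by
  let _ := CStarAlgebra.spectralOrder (Unitization ℂ B)
  have := CStarAlgebra.spectralOrderedRing (Unitization ℂ B)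
  set p : Unitization ℂ B := (Q : Unitization ℂ B) with hp
  set q : Unitization ℂ B := star p with hq
  have hpp : p * p = p := by
    rw [hp, ← Unitization.inr_mul, hQ]
  have hqq : q * q = q := by
    rw [hq, ← star_mul, hpp]
  set z := p + q - 1 with hz
  have hzs : star z = z := by
    rw [hz, star_sub, star_add, star_one, hq, star_star, add_comm]
  have hzz : z * z = 1 + star (p - q) * (p - q) := by
    have e : star (p - q) = q - p := by
      rw [star_sub, hq, star_star]
    rw [e, hz]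
    simp only [sub_mul, mul_sub, add_mul, mul_add, hpp, hqq, one_mul, mul_one]
    abel
  have hunit : IsUnit (z * z) := by
    rw [hzz]
    refine CStarAlgebra.isUnit_of_le (1 : Unitization ℂ B) ?_ ?_
    · have := star_mul_self_nonneg (p - q)
      simpa using this
    · exact isStrictlyPositive_one
  have hzu : IsUnit z := ((Commute.refl z).isUnit_mul_iff.mp hunit).1
  obtain ⟨u, hu⟩ := hzu
  set w : Unitization ℂ B := ((u⁻¹ : (Unitization ℂ B)ˣ) : Unitization ℂ B) with hw
  have hzw : z * w = 1 := by rw [← hu, hw, Units.mul_inv]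
  have hwz : w * z = 1 := by rw [← hu, hw, Units.inv_mul]
  have hpz : p * z = z * q := by
    rw [hz]
    simp only [mul_sub, mul_add, sub_mul, add_mul, hpp, hqq, one_mul, mul_one]
    abel
  have hpz' : p * z = p * q := by
    rw [hz]
    simp only [mul_sub, mul_add, hpp, mul_one]
    abel
  have hqz : q * z = z * p := by
    rw [hz]
    simp only [mul_sub, mul_add, sub_mul, add_mul, hpp, hqq, one_mul, mul_one]
    abel
  have hwp : w * p = q * w := by
    calc w * p = w * p * (z * w) := by rw [hzw, mul_one]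
      _ = w * (p * z) * w := by noncomm_ring
      _ = (w * z) * q * w := by rw [hpz]; noncomm_ring
      _ = q * w := by rw [hwz, one_mul]
  have hwq : w * q = p * w := by
    calc w * q = w * q * (z * w) := by rw [hzw, mul_one]
      _ = w * (q * z) * w := by noncomm_ring
      _ = (w * z) * p * w := by rw [hqz]; noncomm_ring
      _ = p * w := by rw [hwz, one_mul]
  have hws : star w = w := by
    calc star w = star w * (z * w) := by rw [hzw, mul_one]
      _ = (star w * star z) * w := by rw [hzs]; noncomm_ring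
      _ = star (z * w) * w := by rw [star_mul]
      _ = w := by rw [hzw, star_one, one_mul]
  set l' := p * w with hl'
  have h1 : star l' = l' := by
    rw [hl', star_mul, hws, ← hq, hwq]
  have h2 : l' * p = p := by
    calc l' * p = p * (w * p) := by rw [hl', mul_assoc]
      _ = (p * q) * w := by rw [hwp, mul_assoc]
      _ = p * (z * w) := by rw [← hpz', mul_assoc]
      _ = p := by rw [hzw, mul_one]
  have h3 : p * l' = l' := by
    rw [hl', ← mul_assoc, hpp]
  have hfst : l'.fst = 0 := by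
    rw [hl', Unitization.fst_mul, hp]
    simp
  have hinr : ((l'.snd : B) : Unitization ℂ B) = l' := by
    ext
    · simp [hfst]
    · simp
  refine ⟨l'.snd, ?_, ?_, ?_⟩
  · apply Unitization.inr_injective (R := ℂ)
    rw [Unitization.inr_star, hinr, h1]
  · apply Unitization.inr_injective (R := ℂ)
    rw [Unitization.inr_mul, hinr]
    exact h2
  · apply Unitization.inr_injective (R := ℂ)
    rw [Unitization.inr_mul, hinr]
    exact h3

theorem rp_unique {Q l l' : B} (h1 : star l = l) (h2 : l * Q = Q) (h3 : Q * l = l)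
    (h1' : star l' = l') (h2' : l' * Q = Q) (h3' : Q * l' = l') : l = l' := by
  have e1 : l' * l = l := by
    rw [← h3, ← mul_assoc, h2']
  have e2 : l * l' = l' := by
    rw [← h3', ← mul_assoc, h2]
  have e3 : star (l' * l) = star l := by rw [e1]
  rw [star_mul, h1, h1'] at e3
  rw [← e3, e2]

/-- The positive square root as a function. -/
def sq (h : B) : B := by
  classical exact if H : Pos h then (exists_sqrt H).choose else 0

theorem sq_pos {h : B} (hh : Pos h) : Pos (sq h) := by
  unfold sq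
  rw [dif_pos hh]
  exact (exists_sqrt hh).choose_spec.1

theorem sq_mul {h : B} (hh : Pos h) : sq h * sq h = h := by
  unfold sq
  rw [dif_pos hh]
  exact (exists_sqrt hh).choose_spec.2.1

theorem sq_comm {h : B} (hh : Pos h) {x : B} (hx : x * h = h * x) : x * sq h = sq h * x := by
  unfold sq
  rw [dif_pos hh]
  exact (exists_sqrt hh).choose_spec.2.2 x hx

theorem sq_eq {h k : B} (hk : Pos k) (h2 : k * k = h) : sq h = k := by
  have hh : Pos h := ⟨k, by rw [hk.sa, h2]⟩
  exact sqrt_unique (sq_pos hh) hk (by rw [sq_mul hh, h2])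

/-- The range projection as a function. -/
def rp (Q : B) : B := by
  classical exact if H : Q * Q = Q then (exists_rp H).choose else 0

theorem rp_star {Q : B} (hQ : Q * Q = Q) : star (rp Q) = rp Q := by
  unfold rp
  rw [dif_pos hQ]
  exact (exists_rp hQ).choose_spec.1

theorem rp_mul {Q : B} (hQ : Q * Q = Q) : rp Q * Q = Q := by
  unfold rp
  rw [dif_pos hQ]
  exact (exists_rp hQ).choose_spec.2.1

theorem mul_rp {Q : B} (hQ : Q * Q = Q) : Q * rp Q = rp Q := by
  unfold rp
  rw [dif_pos hQ]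
  exact (exists_rp hQ).choose_spec.2.2

theorem rp_eq {Q l : B} (hQ : Q * Q = Q) (h1 : star l = l) (h2 : l * Q = Q) (h3 : Q * l = l) :
    rp Q = l :=
  rp_unique (rp_star hQ) (rp_mul hQ) (mul_rp hQ) h1 h2 h3

theorem rp_self {p : B} (hp : p * p = p) (hs : star p = p) : rp p = p := rp_eq hp hs hp hp

variable {C : Type*} [NonUnitalCStarAlgebra C]

theorem map_pos (f : B →⋆ₙₐ[ℂ] C) {a : B} (h : Pos a) : Pos (f a) := by
  obtain ⟨b, rfl⟩ := h
  exact ⟨f b, by rw [map_mul, map_star]⟩

theorem map_sq (f : B →⋆ₙₐ[ℂ] C) {h : B} (hh : Pos h) : f (sq h) = sq (f h) :=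
  (sq_eq (map_pos f (sq_pos hh)) (by rw [← map_mul, sq_mul hh])).symm

theorem map_rp (f : B →⋆ₙₐ[ℂ] C) {Q : B} (hQ : Q * Q = Q) : f (rp Q) = rp (f Q) := by
  refine (rp_eq ?_ ?_ ?_ ?_).symm
  · rw [← map_mul, hQ]
  · rw [← map_star, rp_star hQ]
  · rw [← map_mul, rp_mul hQ]
  · rw [← map_mul, mul_rp hQ]

end

end Pool.Agent.Lib.MP_8f60dc_al
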