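import Mathlib

/-!
# Leavitt path algebras, graph C*-algebras and homotopy equivalence: definitions
-/

set_option autoImplicit false

open scoped unitInterval

namespace Pool.Agent.Lib.MP_8f60dc_al

/-- Directed graphs. -/
structure DGraph where
  V : Type
  Ed : Type
  src : Ed → V
  rng : Ed → V

/-- A family of elements of `B` indexed by the vertices, the edges and the ghost edges. -/
@[ext] structure Fam (E : DGraph) (B : Type*) where
  P : E.V → B
  S : E.Ed → B
  T : E.Ed → B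

/-- The image of a family under a map. -/
def Fam.map {E : DGraph} {B C : Type*} (f : B → C) (l : Fam E B) : Fam E C where
  P v := f (l.P v)
  S e := f (l.S e)
  T e := f (l.T e)

/-- The Leavitt relations.  A finite nonempty set `s` with `e ∈ s ↔ src e = v` exists exactly
when `v` is regular, and then it is the set of edges emitted by `v`. -/
structure IsLeavitt {E : DGraph} {B : Type*} [NonUnitalRing B] (l : Fam E B) : Prop where
  idem : ∀ v, l.P v * l.P v = l.P v
  orth : ∀ v w, v ≠ w → l.P v * l.P w = 0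
  ps : ∀ e, l.P (E.src e) * l.S e = l.S e
  sp : ∀ e, l.S e * l.P (E.rng e) = l.S e
  pt : ∀ e, l.P (E.rng e) * l.T e = l.T e
  tp : ∀ e, l.T e * l.P (E.src e) = l.T e
  ts : ∀ e, l.T e * l.S e = l.P (E.rng e)
  ts0 : ∀ e f, e ≠ f → l.T e * l.S f = 0
  ck : ∀ v (s : Finset E.Ed), s.Nonempty → (∀ e, e ∈ s ↔ E.src e = v) →
    l.P v = ∑ e ∈ s, l.S e * l.T e

/-- Cuntz-Krieger families in a C*-algebra. -/
structure IsCK {E : DGraph} {B : Type*} [NonUnitalRing B] [StarRing B] (l : Fam E B) : Prop where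
  lv : IsLeavitt l
  sa : ∀ v, star (l.P v) = l.P v
  st : ∀ e, l.T e = star (l.S e)

/-- Generators of the Leavitt path algebra. -/
inductive Gen (E : DGraph) : Type
  | vert : E.V → Gen E
  | edge : E.Ed → Gen E
  | ghost : E.Ed → Gen E

/-- Relations of the Leavitt path algebra inside the free unital algebra. -/
inductive LRel (E : DGraph) : FreeAlgebra ℂ (Gen E) → FreeAlgebra ℂ (Gen E) → Prop
  | idem (v : E.V) : LRel E (FreeAlgebra.ι ℂ (.vert v) * FreeAlgebra.ι ℂ (.vert v))
      (FreeAlgebra.ι ℂ (.vert v))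
  | orth (v w : E.V) (h : v ≠ w) :
      LRel E (FreeAlgebra.ι ℂ (.vert v) * FreeAlgebra.ι ℂ (.vert w)) 0
  | ps (e : E.Ed) : LRel E (FreeAlgebra.ι ℂ (.vert (E.src e)) * FreeAlgebra.ι ℂ (.edge e))
      (FreeAlgebra.ι ℂ (.edge e))
  | sp (e : E.Ed) : LRel E (FreeAlgebra.ι ℂ (.edge e) * FreeAlgebra.ι ℂ (.vert (E.rng e)))
      (FreeAlgebra.ι ℂ (.edge e))
  | pt (e : E.Ed) : LRel E (FreeAlgebra.ι ℂ (.vert (E.rng e)) * FreeAlgebra.ι ℂ (.ghost e))
      (FreeAlgebra.ι ℂ (.ghost e))
  | tp (e : E.Ed) : LRel E (FreeAlgebra.ι ℂ (.ghost e) * FreeAlgebra.ι ℂ (.vert (E.src e)))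
      (FreeAlgebra.ι ℂ (.ghost e))
  | ts (e : E.Ed) : LRel E (FreeAlgebra.ι ℂ (.ghost e) * FreeAlgebra.ι ℂ (.edge e))
      (FreeAlgebra.ι ℂ (.vert (E.rng e)))
  | ts0 (e f : E.Ed) (h : e ≠ f) :
      LRel E (FreeAlgebra.ι ℂ (.ghost e) * FreeAlgebra.ι ℂ (.edge f)) 0
  | ck (v : E.V) (s : Finset E.Ed) (hs : s.Nonempty) (h : ∀ e, e ∈ s ↔ E.src e = v) :
      LRel E (FreeAlgebra.ι ℂ (.vert v))
        (∑ e ∈ s, FreeAlgebra.ι ℂ (.edge e) * FreeAlgebra.ι ℂ (.ghost e))

/-- The unital algebra with the Leavitt relations. -/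
abbrev UL (E : DGraph) : Type := RingQuot (LRel E)

/-- The images of the generators. -/
def UL.gen (E : DGraph) (x : Gen E) : UL E :=
  RingQuot.mkAlgHom ℂ (LRel E) (FreeAlgebra.ι ℂ x)

/-- The subalgebra generated by the vertices, the edges and the ghost edges. -/
def LPAsub (E : DGraph) : NonUnitalSubalgebra ℂ (UL E) :=
  NonUnitalAlgebra.adjoin ℂ (Set.range (UL.gen E))

/-- The complex Leavitt path algebra: the (non-unital) algebra generated by the vertices, the
edges and the ghost edges. -/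
def LPA (E : DGraph) : Type := LPAsub E

instance instRingLPA (E : DGraph) : NonUnitalRing (LPA E) :=
  (LPAsub E).toNonUnitalRing

instance instModuleLPA (E : DGraph) : Module ℂ (LPA E) :=
  (LPAsub E).instModule

/-- *-homomorphisms. -/
abbrev SHom (A B : Type*) [NonUnitalCStarAlgebra A] [NonUnitalCStarAlgebra B] :=
  A →⋆ₙₐ[ℂ] B

/-- `A` with the family `l` is the graph C*-algebra of `E`: the universal C*-algebra generated by
a Cuntz-Krieger family. -/
structure IsGraphCStar (E : DGraph) (A : Type) [NonUnitalCStarAlgebra A] (l : Fam E A) :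
    Prop where
  ck : IsCK l
  univ : ∀ (B : Type) [NonUnitalCStarAlgebra B] (m : Fam E B), IsCK m →
    ∃! f : SHom A B, l.map f = m

/-- `H` is a homotopy from `f` to `g`: a path of *-homomorphisms, continuous at every element. -/
def IsHomotopy {A B : Type*} [NonUnitalCStarAlgebra A] [NonUnitalCStarAlgebra B]
    (H : I → SHom A B) (f g : SHom A B) : Prop :=
  (∀ a, Continuous fun t => H t a) ∧ H 0 = f ∧ H 1 = g

/-- Homotopy of maps from the Leavitt path algebra to a C*-algebra, through algebra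
homomorphisms: a path of algebra homomorphisms, continuous at every element. -/
def AlgHomotopic {E : DGraph} {B : Type*} [NonUnitalCStarAlgebra B] (φ ψ : LPA E → B) : Prop :=
  ∃ θ : I → (LPA E →ₙₐ[ℂ] B), (∀ x, Continuous fun t => θ t x) ∧ (∀ x, θ 0 x = φ x) ∧
    ∀ x, θ 1 x = ψ x

/-- Closed two-sided ideals. -/
structure IsClosedIdeal {B : Type*} [NonUnitalCStarAlgebra B] (J : Set B) : Prop where
  zero : (0 : B) ∈ J
  add : ∀ a ∈ J, ∀ b ∈ J, a + b ∈ J
  smul : ∀ (c : ℂ), ∀ a ∈ J, c • a ∈ J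
  left : ∀ x : B, ∀ a ∈ J, x * a ∈ J
  right : ∀ x : B, ∀ a ∈ J, a * x ∈ J
  closed : IsClosed J

/-- The closed two-sided ideal generated by a set. -/
def Idl {B : Type*} [NonUnitalCStarAlgebra B] (X : Set B) : Set B :=
  {a | ∀ J : Set B, IsClosedIdeal J → X ⊆ J → a ∈ J}

/-- Nondegenerate *-homomorphisms: the products `f a * x` span a dense subspace of `B`. -/
def Nondeg {A B : Type*} [NonUnitalCStarAlgebra A] [NonUnitalCStarAlgebra B]
    (f : SHom A B) : Prop :=
  ∀ b : B, b ∈ closure (Submodule.span ℂ {y : B | ∃ a x, y = f a * x} : Set B)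

/-- `f` and `g` are mutually inverse homotopy equivalences, by the homotopies `H` and `K`, all
these maps being nondegenerate. -/
structure IsEquivalence {A B : Type*} [NonUnitalCStarAlgebra A] [NonUnitalCStarAlgebra B]
    (f : SHom A B) (g : SHom B A) (H : I → SHom A A) (K : I → SHom B B) : Prop where
  gf : IsHomotopy H (g.comp f) (NonUnitalStarAlgHom.id ℂ A)
  fg : IsHomotopy K (f.comp g) (NonUnitalStarAlgHom.id ℂ B)
  nf : Nondeg f
  ng : Nondeg g
  nH : ∀ t, Nondeg (H t)
  nK : ∀ t, Nondeg (K t)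

/-- The maps respect a closed ideal `J` of `A` and a closed ideal `J'` of `B`. -/
structure Respects {A B : Type*} [NonUnitalCStarAlgebra A] [NonUnitalCStarAlgebra B]
    (f : SHom A B) (g : SHom B A) (H : I → SHom A A) (K : I → SHom B B)
    (J : Set A) (J' : Set B) : Prop where
  hf : ∀ a ∈ J, f a ∈ J'
  hg : ∀ b ∈ J', g b ∈ J
  hH : ∀ t, ∀ a ∈ J, H t a ∈ J
  hK : ∀ t, ∀ b ∈ J', K t b ∈ J'

/-- The canonical family of the Leavitt path algebra. -/
def lf (E : DGraph) : Fam E (LPA E) where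
  P v := ⟨UL.gen E (.vert v), NonUnitalAlgebra.subset_adjoin ℂ (Set.mem_range_self _)⟩
  S e := ⟨UL.gen E (.edge e), NonUnitalAlgebra.subset_adjoin ℂ (Set.mem_range_self _)⟩
  T e := ⟨UL.gen E (.ghost e), NonUnitalAlgebra.subset_adjoin ℂ (Set.mem_range_self _)⟩

/-- Isomorphisms of algebras between Leavitt path algebras. -/
def IsAlgIso {E F : DGraph} (Φ : LPA E → LPA F) : Prop :=
  Function.Bijective Φ ∧ ∃ φ : LPA E →ₙₐ[ℂ] LPA F, ∀ x, φ x = Φ x

/-- `i` is the canonical algebra homomorphism from the Leavitt path algebra to the C*-algebra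
generated by `l`. -/
def IsCanonical {E : DGraph} {A : Type*} [NonUnitalCStarAlgebra A] (l : Fam E A)
    (i : LPA E → A) : Prop :=
  (lf E).map i = l ∧ ∃ φ : LPA E →ₙₐ[ℂ] A, ∀ x, φ x = i x

end Pool.Agent.Lib.MP_8f60dc_al
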