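import Pool.Agent.Lib.MP_8f60dc_al.Sim

/-!
# The universal property of the Leavitt path algebra
-/

set_option autoImplicit false

namespace Pool.Agent.Lib.MP_8f60dc_al

noncomputable section

variable {E : DGraph}

theorem UL.gen_mem (x : Gen E) : UL.gen E x ∈ LPAsub E :=
  NonUnitalAlgebra.subset_adjoin ℂ (Set.mem_range_self x)

instance instTowerLPA : IsScalarTower ℂ (LPA E) (LPA E) :=
  inferInstanceAs (IsScalarTower ℂ (LPAsub E) (LPAsub E))

instance instCommLPA : SMulCommClass ℂ (LPA E) (LPA E) :=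
  inferInstanceAs (SMulCommClass ℂ (LPAsub E) (LPAsub E))

theorem UL.rel {x y : FreeAlgebra ℂ (Gen E)} (h : LRel E x y) :
    RingQuot.mkAlgHom ℂ (LRel E) x = RingQuot.mkAlgHom ℂ (LRel E) y :=
  RingQuot.mkAlgHom_rel ℂ h

theorem lf_leavitt : IsLeavitt (lf E) where
  idem v := Subtype.ext (by
    change UL.gen E _ * UL.gen E _ = UL.gen E _
    unfold UL.gen
    rw [← map_mul]
    exact UL.rel (.idem v))
  orth v w h := Subtype.ext (by
    change UL.gen E _ * UL.gen E _ = 0
    unfold UL.gen
    rw [← map_mul, ← map_zero (RingQuot.mkAlgHom ℂ (LRel E))]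
    exact UL.rel (.orth v w h))
  ps e := Subtype.ext (by
    change UL.gen E _ * UL.gen E _ = UL.gen E _
    unfold UL.gen
    rw [← map_mul]
    exact UL.rel (.ps e))
  sp e := Subtype.ext (by
    change UL.gen E _ * UL.gen E _ = UL.gen E _
    unfold UL.gen
    rw [← map_mul]
    exact UL.rel (.sp e))
  pt e := Subtype.ext (by
    change UL.gen E _ * UL.gen E _ = UL.gen E _
    unfold UL.gen
    rw [← map_mul]
    exact UL.rel (.pt e))
  tp e := Subtype.ext (by
    change UL.gen E _ * UL.gen E _ = UL.gen E _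
    unfold UL.gen
    rw [← map_mul]
    exact UL.rel (.tp e))
  ts e := Subtype.ext (by
    change UL.gen E _ * UL.gen E _ = UL.gen E _
    unfold UL.gen
    rw [← map_mul]
    exact UL.rel (.ts e))
  ts0 e f h := Subtype.ext (by
    change UL.gen E _ * UL.gen E _ = 0
    unfold UL.gen
    rw [← map_mul, ← map_zero (RingQuot.mkAlgHom ℂ (LRel E))]
    exact UL.rel (.ts0 e f h))
  ck v s hs h := Subtype.ext (by
    have h1 : ((∑ e ∈ s, (lf E).S e * (lf E).T e : LPA E) : LPAsub E).1 =
        ∑ e ∈ s, ((lf E).S e : LPAsub E).1 * ((lf E).T e : LPAsub E).1 := by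
      rw [← Finset.sum_congr rfl (fun e _ =>
        NonUnitalSubalgebra.coe_mul (S := LPAsub E) ((lf E).S e) ((lf E).T e))]
      exact map_sum (NonUnitalSubalgebraClass.subtype (LPAsub E)) _ s
    rw [h1]
    change UL.gen E _ = ∑ e ∈ s, UL.gen E _ * UL.gen E _
    unfold UL.gen
    rw [UL.rel (.ck v s hs h), map_sum]
    exact Finset.sum_congr rfl fun e _ => map_mul _ _ _)

variable {R : Type*} [NonUnitalRing R] [Module ℂ R] [IsScalarTower ℂ R R] [SMulCommClass ℂ R R]

/-- Values on generators. -/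
def Fam.val (l : Fam E R) : Gen E → R
  | .vert v => l.P v
  | .edge e => l.S e
  | .ghost e => l.T e

/-- The homomorphism of the free algebra. -/
def preLift (l : Fam E R) : FreeAlgebra ℂ (Gen E) →ₐ[ℂ] Unitization ℂ R :=
  FreeAlgebra.lift ℂ fun x => (l.val x : Unitization ℂ R)

theorem preLift_ι (l : Fam E R) (x : Gen E) :
    preLift l (FreeAlgebra.ι ℂ x) = (l.val x : Unitization ℂ R) :=
  FreeAlgebra.lift_ι_apply _ _

theorem preLift_rel {l : Fam E R} (hl : IsLeavitt l) ⦃x y : FreeAlgebra ℂ (Gen E)⦄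
    (h : LRel E x y) : preLift l x = preLift l y := by
  cases h with
  | idem v =>
    rw [map_mul]
    simp only [preLift_ι, ← Unitization.inr_mul]
    exact congrArg _ (hl.idem v)
  | orth v w h =>
    rw [map_mul, map_zero]
    simp only [preLift_ι, ← Unitization.inr_mul]
    exact (congrArg _ (hl.orth v w h)).trans (Unitization.inr_zero ℂ)
  | ps e =>
    rw [map_mul]
    simp only [preLift_ι, ← Unitization.inr_mul]
    exact congrArg _ (hl.ps e)
  | sp e =>
    rw [map_mul]
    simp only [preLift_ι, ← Unitization.inr_mul]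
    exact congrArg _ (hl.sp e)
  | pt e =>
    rw [map_mul]
    simp only [preLift_ι, ← Unitization.inr_mul]
    exact congrArg _ (hl.pt e)
  | tp e =>
    rw [map_mul]
    simp only [preLift_ι, ← Unitization.inr_mul]
    exact congrArg _ (hl.tp e)
  | ts e =>
    rw [map_mul]
    simp only [preLift_ι, ← Unitization.inr_mul]
    exact congrArg _ (hl.ts e)
  | ts0 e f h =>
    rw [map_mul, map_zero]
    simp only [preLift_ι, ← Unitization.inr_mul]
    exact (congrArg _ (hl.ts0 e f h)).trans (Unitization.inr_zero ℂ)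
  | ck v s hs h =>
    rw [map_sum]
    simp only [map_mul, preLift_ι, ← Unitization.inr_mul]
    have h1 := hl.ck v s hs h
    have h2 : ((∑ e ∈ s, l.S e * l.T e : R) : Unitization ℂ R) =
        ∑ e ∈ s, ((l.S e * l.T e : R) : Unitization ℂ R) :=
      map_sum (Unitization.inrNonUnitalAlgHom ℂ R) _ s
    exact (congrArg _ h1).trans h2

/-- The homomorphism of the unital algebra. -/
def uLift {l : Fam E R} (hl : IsLeavitt l) : UL E →ₐ[ℂ] Unitization ℂ R :=
  RingQuot.liftAlgHom ℂ ⟨preLift l, preLift_rel hl⟩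

theorem uLift_gen {l : Fam E R} (hl : IsLeavitt l) (x : Gen E) :
    uLift hl (UL.gen E x) = (l.val x : Unitization ℂ R) := by
  unfold uLift UL.gen
  rw [RingQuot.liftAlgHom_mkAlgHom_apply, preLift_ι]

theorem uLift_fst {l : Fam E R} (hl : IsLeavitt l) (x : LPAsub E) :
    (uLift hl (x : UL E)).fst = 0 := by
  obtain ⟨x, hx⟩ := x
  change (uLift hl x).fst = 0
  unfold LPAsub at hx
  induction hx using NonUnitalAlgebra.adjoin_induction with
  | mem x h =>
    obtain ⟨y, rfl⟩ := h
    rw [uLift_gen]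
    exact Unitization.fst_inr ℂ _
  | add x y _ _ h1 h2 => rw [map_add, Unitization.fst_add, h1, h2, add_zero]
  | zero => rw [map_zero, Unitization.fst_zero]
  | mul x y _ _ h1 h2 => rw [map_mul, Unitization.fst_mul, h1, zero_mul]
  | smul r x _ h => rw [map_smul, Unitization.fst_smul, h, smul_zero]

/-- The homomorphism of the Leavitt path algebra defined by a Leavitt family. -/
def lLift {l : Fam E R} (hl : IsLeavitt l) : LPA E →ₙₐ[ℂ] R where
  toFun x := (uLift hl (Subtype.val (p := fun y => y ∈ LPAsub E) x)).snd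
  map_smul' r x := by
    change (uLift hl (r • x.1)).snd = r • (uLift hl x.1).snd
    rw [map_smul, Unitization.snd_smul]
  map_zero' := by
    change (uLift hl (0 : UL E)).snd = 0
    rw [map_zero, Unitization.snd_zero]
  map_add' x y := by
    change (uLift hl (x.1 + y.1)).snd = (uLift hl x.1).snd + (uLift hl y.1).snd
    rw [map_add, Unitization.snd_add]
  map_mul' x y := by
    change (uLift hl (x.1 * y.1)).snd = (uLift hl x.1).snd * (uLift hl y.1).snd
    rw [map_mul, Unitization.snd_mul, uLift_fst hl x, uLift_fst hl y, zero_smul, zero_smul,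
      zero_add, zero_add]

theorem lLift_lf {l : Fam E R} (hl : IsLeavitt l) : (lf E).map (lLift hl) = l := by
  ext x
  · change (uLift hl (UL.gen E (.vert x))).snd = l.P x
    rw [uLift_gen]
    rfl
  · change (uLift hl (UL.gen E (.edge x))).snd = l.S x
    rw [uLift_gen]
    rfl
  · change (uLift hl (UL.gen E (.ghost x))).snd = l.T x
    rw [uLift_gen]
    rfl

omit [IsScalarTower ℂ R R] [SMulCommClass ℂ R R] in
theorem lpa_ext {f g : LPA E →ₙₐ[ℂ] R} (h : (lf E).map f = (lf E).map g) (x : LPA E) :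
    f x = g x := by
  obtain ⟨x, hx⟩ := x
  have hx' := hx
  unfold LPAsub at hx'
  induction hx' using NonUnitalAlgebra.adjoin_induction with
  | mem x h1 =>
    obtain ⟨y, rfl⟩ := h1
    cases y with
    | vert v => exact congrFun (congrArg Fam.P h) v
    | edge e => exact congrFun (congrArg Fam.S h) e
    | ghost e => exact congrFun (congrArg Fam.T h) e
  | add x y h1 h2 h3 h4 =>
    exact (map_add f (⟨x, h1⟩ : LPAsub E) (⟨y, h2⟩ : LPAsub E)).trans
      ((congrArg₂ _ (h3 h1) (h4 h2)).trans
        (map_add g (⟨x, h1⟩ : LPAsub E) (⟨y, h2⟩ : LPAsub E)).symm)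
  | zero => exact (map_zero f).trans (map_zero g).symm
  | mul x y h1 h2 h3 h4 =>
    exact (map_mul f (⟨x, h1⟩ : LPAsub E) (⟨y, h2⟩ : LPAsub E)).trans
      ((congrArg₂ _ (h3 h1) (h4 h2)).trans
        (map_mul g (⟨x, h1⟩ : LPAsub E) (⟨y, h2⟩ : LPAsub E)).symm)
  | smul r x h1 h2 =>
    exact (map_smul f r (⟨x, h1⟩ : LPAsub E)).trans
      ((congrArg _ (h2 h1)).trans (map_smul g r (⟨x, h1⟩ : LPAsub E)).symm)

end

end Pool.Agent.Lib.MP_8f60dc_al
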