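import Pool.Agent.Lib.MP_8f60dc_al.ND
import Pool.Agent.Lib.MP_8f60dc_al.Univ

/-!
# Nondegeneracy for graph C*-algebras and for Leavitt path algebras
-/

set_option autoImplicit false

open scoped unitInterval Topology

namespace Pool.Agent.Lib.MP_8f60dc_al

noncomputable section

theorem LS_mul {B : Type*} [NonUnitalCStarAlgebra B] {ι : Type*} (u : ι → B) {z : B}
    (hz : z ∈ LS u) (w : B) : z * w ∈ LS u := by
  have h : LS u ≤ ((LS u).comap (rmul w).toLinearMap) := by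
    apply LS_le (comap_closed _ (LS_closed u))
    intro i x
    change (u i * x) * w ∈ LS u
    rw [mul_assoc]
    exact LS_mem u i _
  exact h hz

/-- The hereditary subalgebra of the vertices. -/
def hered {E : DGraph} {A : Type} [NonUnitalCStarAlgebra A] (l : Fam E A) :
    NonUnitalStarSubalgebra ℂ A where
  carrier := {a | a ∈ LS l.P ∧ star a ∈ LS l.P}
  add_mem' {a b} ha hb := by
    refine ⟨Submodule.add_mem _ ha.1 hb.1, ?_⟩
    rw [star_add]
    exact Submodule.add_mem _ ha.2 hb.2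
  zero_mem' := by
    refine ⟨Submodule.zero_mem _, ?_⟩
    rw [star_zero]
    exact Submodule.zero_mem _
  mul_mem' {a b} ha hb := by
    refine ⟨LS_mul _ ha.1 _, ?_⟩
    rw [star_mul]
    exact LS_mul _ hb.2 _
  smul_mem' c x hx := by
    refine ⟨Submodule.smul_mem _ _ hx.1, ?_⟩
    rw [star_smul]
    exact Submodule.smul_mem _ _ hx.2
  star_mem' {a} ha := by
    refine ⟨ha.2, ?_⟩
    rw [star_star]
    exact ha.1

theorem hered_closed {E : DGraph} {A : Type} [NonUnitalCStarAlgebra A] (l : Fam E A) :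
    IsClosed (hered l : Set A) :=
  (LS_closed l.P).inter ((LS_closed l.P).preimage continuous_star)

theorem nd_graph {E : DGraph} {A : Type} [NonUnitalCStarAlgebra A] {l : Fam E A}
    (hA : IsGraphCStar E A l) : LS l.P = ⊤ := by
  have hcl := hered_closed l
  have hlv := hA.ck.lv
  have hP : ∀ v, l.P v ∈ hered l := fun v => by
    have h : l.P v ∈ LS l.P := by
      rw [← hlv.idem]
      exact LS_mem _ _ _
    refine ⟨h, ?_⟩
    rw [hA.ck.sa]
    exact h
  have hS : ∀ e, l.S e ∈ hered l := fun e => by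
    refine ⟨?_, ?_⟩
    · rw [← hlv.ps]
      exact LS_mem _ _ _
    · rw [← hA.ck.st, ← hlv.pt]
      exact LS_mem _ _ _
  have hT : ∀ e, l.T e ∈ hered l := fun e => by
    rw [hA.ck.st]
    exact star_mem (hS e)
  let m : Fam E (hered l) := ⟨fun v => ⟨l.P v, hP v⟩, fun e => ⟨l.S e, hS e⟩,
    fun e => ⟨l.T e, hT e⟩⟩
  have hm : IsCK m := by
    refine ⟨⟨fun v => Subtype.ext (hlv.idem v), fun v w h => Subtype.ext (hlv.orth v w h),
      fun e => Subtype.ext (hlv.ps e), fun e => Subtype.ext (hlv.sp e),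
      fun e => Subtype.ext (hlv.pt e), fun e => Subtype.ext (hlv.tp e),
      fun e => Subtype.ext (hlv.ts e), fun e f h => Subtype.ext (hlv.ts0 e f h), ?_⟩,
      fun v => Subtype.ext (hA.ck.sa v), fun e => Subtype.ext (hA.ck.st e)⟩
    intro v s hs h
    apply Subtype.ext
    have h1 : ((∑ e ∈ s, m.S e * m.T e : hered l) : A) =
        ∑ e ∈ s, ((m.S e * m.T e : hered l) : A) :=
      map_sum (NonUnitalSubalgebraClass.subtype (hered l)) _ s
    rw [h1]
    exact hlv.ck v s hs h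
  obtain ⟨f, hf, -⟩ := hA.univ (hered l) m hm
  have hlf : l.map ((NonUnitalStarSubalgebraClass.subtype (hered l)).comp f) = l := by
    have e1 : l.map ((NonUnitalStarSubalgebraClass.subtype (hered l)).comp f) =
        (l.map f).map (NonUnitalStarSubalgebraClass.subtype (hered l)) := rfl
    rw [e1, hf]
    rfl
  obtain ⟨_, _, hu⟩ := hA.univ A l hA.ck
  have e1 := hu ((NonUnitalStarSubalgebraClass.subtype (hered l)).comp f) hlf
  have e2 := hu (NonUnitalStarAlgHom.id ℂ A) rfl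
  have e3 := e1.trans e2.symm
  rw [eq_top_iff]
  intro a _
  have e4 : ((f a : hered l) : A) = a := DFunLike.congr_fun e3 a
  rw [← e4]
  exact (f a).2.1

/-! ### Leavitt path algebras -/

variable {E : DGraph} {B : Type*} [NonUnitalCStarAlgebra B]

theorem lpa_left (φ : LPA E →ₙₐ[ℂ] B) (y : LPA E) (x : B) :
    φ y * x ∈ LS ((lf E).map φ).P := by
  have hl : IsLeavitt ((lf E).map φ) := lf_leavitt.map φ
  obtain ⟨y, hy⟩ := y
  have hy' := hy
  unfold LPAsub at hy'
  induction hy' using NonUnitalAlgebra.adjoin_induction generalizing x with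
  | mem y h1 =>
    obtain ⟨z, rfl⟩ := h1
    cases z with
    | vert v => exact LS_mem ((lf E).map φ).P v x
    | edge e =>
      change ((lf E).map φ).S e * x ∈ _
      rw [← hl.ps, mul_assoc]
      exact LS_mem ((lf E).map φ).P _ _
    | ghost e =>
      change ((lf E).map φ).T e * x ∈ _
      rw [← hl.pt, mul_assoc]
      exact LS_mem ((lf E).map φ).P _ _
  | add y z h1 h2 h3 h4 =>
    have e : φ (⟨y + z, hy⟩ : LPAsub E) = φ (⟨y, h1⟩ : LPAsub E) + φ (⟨z, h2⟩ : LPAsub E) :=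
      map_add φ (⟨y, h1⟩ : LPAsub E) (⟨z, h2⟩ : LPAsub E)
    rw [e, add_mul]
    exact Submodule.add_mem _ (h3 x h1) (h4 x h2)
  | zero =>
    have e : φ (⟨0, hy⟩ : LPAsub E) = 0 := map_zero φ
    rw [e, zero_mul]
    exact Submodule.zero_mem _
  | mul y z h1 h2 h3 h4 =>
    have e : φ (⟨y * z, hy⟩ : LPAsub E) = φ (⟨y, h1⟩ : LPAsub E) * φ (⟨z, h2⟩ : LPAsub E) :=
      map_mul φ (⟨y, h1⟩ : LPAsub E) (⟨z, h2⟩ : LPAsub E)
    rw [e, mul_assoc]
    exact h3 _ h1
  | smul r y h1 h2 =>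
    have e : φ (⟨r • y, hy⟩ : LPAsub E) = r • φ (⟨y, h1⟩ : LPAsub E) :=
      map_smul φ r (⟨y, h1⟩ : LPAsub E)
    rw [e, smul_mul_assoc]
    exact Submodule.smul_mem _ _ (h2 x h1)

theorem lpa_right (φ : LPA E →ₙₐ[ℂ] B) (y : LPA E) (x : B) :
    x * φ y ∈ RS ((lf E).map φ).P := by
  have hl : IsLeavitt ((lf E).map φ) := lf_leavitt.map φ
  obtain ⟨y, hy⟩ := y
  have hy' := hy
  unfold LPAsub at hy'
  induction hy' using NonUnitalAlgebra.adjoin_induction generalizing x with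
  | mem y h1 =>
    obtain ⟨z, rfl⟩ := h1
    cases z with
    | vert v => exact RS_mem ((lf E).map φ).P v x
    | edge e =>
      change x * ((lf E).map φ).S e ∈ _
      rw [← hl.sp, ← mul_assoc]
      exact RS_mem ((lf E).map φ).P _ _
    | ghost e =>
      change x * ((lf E).map φ).T e ∈ _
      rw [← hl.tp, ← mul_assoc]
      exact RS_mem ((lf E).map φ).P _ _
  | add y z h1 h2 h3 h4 =>
    have e : φ (⟨y + z, hy⟩ : LPAsub E) = φ (⟨y, h1⟩ : LPAsub E) + φ (⟨z, h2⟩ : LPAsub E) :=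
      map_add φ (⟨y, h1⟩ : LPAsub E) (⟨z, h2⟩ : LPAsub E)
    rw [e, mul_add]
    exact Submodule.add_mem _ (h3 x h1) (h4 x h2)
  | zero =>
    have e : φ (⟨0, hy⟩ : LPAsub E) = 0 := map_zero φ
    rw [e, mul_zero]
    exact Submodule.zero_mem _
  | mul y z h1 h2 h3 h4 =>
    have e : φ (⟨y * z, hy⟩ : LPAsub E) = φ (⟨y, h1⟩ : LPAsub E) * φ (⟨z, h2⟩ : LPAsub E) :=
      map_mul φ (⟨y, h1⟩ : LPAsub E) (⟨z, h2⟩ : LPAsub E)
    rw [e, ← mul_assoc]
    exact h4 _ h2
  | smul r y h1 h2 =>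
    have e : φ (⟨r • y, hy⟩ : LPAsub E) = r • φ (⟨y, h1⟩ : LPAsub E) :=
      map_smul φ r (⟨y, h1⟩ : LPAsub E)
    rw [e, mul_smul_comm]
    exact Submodule.smul_mem _ _ (h2 x h1)

end

end Pool.Agent.Lib.MP_8f60dc_al
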