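import Pool.Agent.Lib.MP_8f60dc_al.Defs

/-!
# Closed ideals and paths of idempotents
-/

set_option autoImplicit false

open scoped unitInterval Topology

namespace Pool.Agent.Lib.MP_8f60dc_al

noncomputable section

variable {A B : Type*} [NonUnitalCStarAlgebra A] [NonUnitalCStarAlgebra B]

theorem idl_closedIdeal (X : Set B) : IsClosedIdeal (Idl X) where
  zero J hJ _ := hJ.zero
  add a ha b hb J hJ hX := hJ.add a (ha J hJ hX) b (hb J hJ hX)
  smul c a ha J hJ hX := hJ.smul c a (ha J hJ hX)
  left x a ha J hJ hX := hJ.left x a (ha J hJ hX)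
  right x a ha J hJ hX := hJ.right x a (ha J hJ hX)
  closed := by
    have : Idl X = ⋂ (J : Set B) (_ : IsClosedIdeal J) (_ : X ⊆ J), J := by
      ext a
      simp [Idl]
    rw [this]
    exact isClosed_iInter fun J => isClosed_iInter fun hJ => isClosed_iInter fun _ => hJ.closed

theorem subset_idl (X : Set B) : X ⊆ Idl X := fun _ ha _ _ hX => hX ha

theorem idl_min {X J : Set B} (hJ : IsClosedIdeal J) (hX : X ⊆ J) : Idl X ⊆ J :=
  fun _ ha => ha J hJ hX

theorem IsClosedIdeal.sub {J : Set B} (hJ : IsClosedIdeal J) {a b : B} (ha : a ∈ J) (hb : b ∈ J) :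
    a - b ∈ J := by
  have h := hJ.add a ha _ (hJ.smul (-1) b hb)
  rwa [neg_one_smul, ← sub_eq_add_neg] at h

theorem IsClosedIdeal.comap {J : Set B} (hJ : IsClosedIdeal J) (f : A →⋆ₙₐ[ℂ] B) :
    IsClosedIdeal (f ⁻¹' J) where
  zero := by
    change f 0 ∈ J
    rw [map_zero]
    exact hJ.zero
  add a ha b hb := by
    change f (a + b) ∈ J
    rw [map_add]
    exact hJ.add _ ha _ hb
  smul c a ha := by
    change f (c • a) ∈ J
    rw [map_smul]
    exact hJ.smul _ _ ha
  left x a ha := by
    change f (x * a) ∈ J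
    rw [map_mul]
    exact hJ.left _ _ ha
  right x a ha := by
    change f (a * x) ∈ J
    rw [map_mul]
    exact hJ.right _ _ ha
  closed := by
    have hc : Continuous f := AddMonoidHomClass.continuous_of_bound f 1 fun x => by
      rw [one_mul]
      exact NonUnitalStarAlgHom.norm_apply_le f x
    exact hJ.closed.preimage hc

theorem infDist_idem {J : Set B} (hJ : IsClosedIdeal J) {p : B} (hp : p * p = p) :
    Metric.infDist p J ≤ Metric.infDist p J * Metric.infDist p J := by
  have hne : J.Nonempty := ⟨0, hJ.zero⟩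
  set d := Metric.infDist p J with hd
  have hd0 : 0 ≤ d := Metric.infDist_nonneg
  have key : ∀ ε : ℝ, 0 < ε → d ≤ (d + ε) * (d + ε) := by
    intro ε hε
    obtain ⟨a, haJ, ha⟩ := (Metric.infDist_lt_iff hne).mp (show Metric.infDist p J < d + ε by
      linarith)
    have h1 : (a * p + p * a) - a * a ∈ J :=
      hJ.sub (hJ.add _ (hJ.right _ _ haJ) _ (hJ.left _ _ haJ)) (hJ.left _ _ haJ)
    have h2 : p - ((a * p + p * a) - a * a) = (p - a) * (p - a) := by
      rw [sub_mul, mul_sub, mul_sub, hp]
      abel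
    have h3 : d ≤ ‖(p - a) * (p - a)‖ := by
      rw [← h2, ← dist_eq_norm]
      exact Metric.infDist_le_dist_of_mem h1
    have h4 : ‖p - a‖ ≤ d + ε := by
      rw [← dist_eq_norm]
      exact ha.le
    calc d ≤ ‖(p - a) * (p - a)‖ := h3
      _ ≤ ‖p - a‖ * ‖p - a‖ := norm_mul_le _ _
      _ ≤ (d + ε) * (d + ε) := mul_le_mul h4 h4 (norm_nonneg _) (by linarith)
  have hlim : Filter.Tendsto (fun ε : ℝ => (d + ε) * (d + ε)) (𝓝[>] 0) (𝓝 ((d + 0) * (d + 0))) := by
    apply Filter.Tendsto.mono_left _ nhdsWithin_le_nhds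
    exact Continuous.tendsto (by fun_prop) 0
  rw [add_zero] at hlim
  exact ge_of_tendsto hlim (eventually_nhdsWithin_of_forall key)

/-- A path of idempotents which meets a closed ideal stays in it. -/
theorem path_mem {J : Set B} (hJ : IsClosedIdeal J) {p : I → B} (hc : Continuous p)
    (hp : ∀ t, p t * p t = p t) {s : I} (hs : p s ∈ J) (t : I) : p t ∈ J := by
  have hne : J.Nonempty := ⟨0, hJ.zero⟩
  set d : I → ℝ := fun t => Metric.infDist (p t) J with hd
  have hdc : Continuous d := (Metric.continuous_infDist_pt J).comp hc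
  have h1 : {t | d t = 0} = {t | d t < 1} := by
    ext t
    simp only [Set.mem_ofPred_eq]
    constructor
    · intro h
      rw [h]
      exact one_pos
    · intro h
      have h2 : d t ≤ d t * d t := infDist_idem hJ (hp t)
      have h3 : 0 ≤ d t := Metric.infDist_nonneg
      nlinarith
  have h2 : IsClopen {t | d t = 0} := by
    refine ⟨isClosed_eq hdc continuous_const, ?_⟩
    rw [h1]
    exact isOpen_lt hdc continuous_const
  have h3 : {t | d t = 0} = Set.univ :=
    h2.eq_univ ⟨s, (hJ.closed.mem_iff_infDist_zero hne).mp hs⟩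
  have h4 : t ∈ {t | d t = 0} := by
    rw [h3]
    trivial
  exact (hJ.closed.mem_iff_infDist_zero hne).mpr h4

end

end Pool.Agent.Lib.MP_8f60dc_al
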