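import Pool.Agent.Lib.MP_8f60dc_al.CS

/-!
# Straightening a countable family of mutually orthogonal idempotents
-/

set_option autoImplicit false

open scoped unitInterval Topology

namespace Pool.Agent.Lib.MP_8f60dc_al

noncomputable section

variable {B : Type*} [NonUnitalCStarAlgebra B] {ι : Type*}

/-- Mutually orthogonal idempotents. -/
structure IdemFam (Q : ι → B) : Prop where
  idem : ∀ i, Q i * Q i = Q i
  orth : ∀ i j, i ≠ j → Q i * Q j = 0

/-- Admissible weights. -/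
def Wt (c : ι → ℝ) (Q : ι → B) : Prop := (∀ i, 0 < c i) ∧ Summable fun i => c i * ‖Q i‖ ^ 2

/-- The positive element attached to the family. -/
def hh (c : ι → ℝ) (Q : ι → B) : B := ∑' i, c i • (star (Q i) * Q i)

/-- Its square root. -/
def kk (c : ι → ℝ) (Q : ι → B) : B := sq (hh c Q)

/-- Left similarity elements. -/
def fA (c : ι → ℝ) (Q : ι → B) (i : ι) : B := kk c Q * Q i

/-- Right similarity elements. -/
def fB (c : ι → ℝ) (Q : ι → B) (i : ι) : B := (c i)⁻¹ • (rp (Q i) * kk c Q)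

variable {c : ι → ℝ} {Q : ι → B}

theorem Wt.summable (hw : Wt c Q) : Summable fun i => c i • (star (Q i) * Q i) := by
  refine Summable.of_norm_bounded hw.2 fun i => ?_
  rw [norm_smul, Real.norm_of_nonneg (hw.1 i).le, CStarRing.norm_star_mul_self, pow_two]

theorem hh_pos (hw : Wt c Q) : Pos (hh c Q) :=
  Pos.tsum fun i => (Pos.star_mul_self (Q i)).smul (hw.1 i).le

theorem kk_pos (hw : Wt c Q) : Pos (kk c Q) := sq_pos (hh_pos hw)

theorem kk_mul (hw : Wt c Q) : kk c Q * kk c Q = hh c Q := sq_mul (hh_pos hw)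

theorem hh_mul_of (hw : Wt c Q) {z : B} {j : ι} (hz : ∀ i, i ≠ j → Q i * z = 0) :
    hh c Q * z = c j • (star (Q j) * (Q j * z)) := by
  unfold hh
  rw [← hw.summable.tsum_mul_right z, tsum_eq_single j]
  · rw [smul_mul_assoc, mul_assoc]
  · intro i hi
    rw [smul_mul_assoc, mul_assoc, hz i hi, mul_zero, smul_zero]

theorem hh_mul (hQ : IdemFam Q) (hw : Wt c Q) (j : ι) :
    hh c Q * Q j = c j • (star (Q j) * Q j) := by
  rw [hh_mul_of hw (j := j) (fun i hi => hQ.orth i j hi), hQ.idem]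

theorem hh_rp (hQ : IdemFam Q) (hw : Wt c Q) (j : ι) :
    hh c Q * rp (Q j) = c j • star (Q j) := by
  have h1 := mul_rp (hQ.idem j)
  rw [hh_mul_of hw (j := j) (fun i hi => by
    rw [← h1, ← mul_assoc, hQ.orth i j hi, zero_mul]), h1]
  congr 1
  have h2 : star (rp (Q j) * Q j) = star (Q j) := by rw [rp_mul (hQ.idem j)]
  rw [star_mul, rp_star (hQ.idem j)] at h2
  exact h2

theorem rp_hh (hQ : IdemFam Q) (hw : Wt c Q) (j : ι) :
    rp (Q j) * hh c Q = c j • Q j := by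
  have h := congrArg star (hh_rp hQ hw j)
  rw [star_mul, rp_star (hQ.idem j), (hh_pos hw).sa, star_smul, star_star, star_trivial] at h
  exact h

/-- The path of the left elements. -/
def pA (c : ι → ℝ) (Q : ι → B) (i : ι) : C(I, B) :=
  ⟨fun t => (1 - (t : ℝ)) • Q i + (t : ℝ) • (kk c Q * Q i), by fun_prop⟩

/-- The path of the right elements. -/
def pB (c : ι → ℝ) (Q : ι → B) (g : C(I, B)) (i : ι) : C(I, B) :=
  ⟨fun t => (c i)⁻¹ • (rp (Q i) * g t), by fun_prop⟩

/-- All properties of the path of similarities. -/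
theorem idem_path (hQ : IdemFam Q) (hw : Wt c Q) :
    ∃ a b : ι → C(I, B),
      (∀ i j t, b i t * a j t = Q i * Q j) ∧ (∀ i t, a i t * Q i = a i t) ∧
      (∀ i t, Q i * b i t = b i t) ∧
      (∀ i, a i 0 = Q i) ∧ (∀ i, b i 0 = Q i) ∧ (∀ i, a i 1 = fA c Q i) ∧
      (∀ i, b i 1 = fB c Q i) ∧
      (∀ i t, a i t = (1 - (t : ℝ)) • Q i + (t : ℝ) • (kk c Q * Q i)) ∧
      ∃ g : C(I, B), (∀ i t, b i t = (c i)⁻¹ • (rp (Q i) * g t)) ∧
        (∀ t : I, (1 - (t : ℝ)) • g t + (t : ℝ) • (g t * kk c Q) = kk c Q * kk c Q) ∧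
        ∀ x, x * kk c Q = kk c Q * x → ∀ t, x * g t = g t * x := by
  obtain ⟨g, g0, g1, g2, g3⟩ := exists_path (kk_pos hw)
  refine ⟨pA c Q, pB c Q g, ?_, ?_, ?_, ?_, ?_, ?_, ?_, fun i t => rfl, g, fun i t => rfl,
    g2, g3⟩
  · intro i j t
    change (c i)⁻¹ • (rp (Q i) * g t) * ((1 - (t : ℝ)) • Q j + (t : ℝ) • (kk c Q * Q j)) = _
    have e : (rp (Q i) * g t) * ((1 - (t : ℝ)) • Q j + (t : ℝ) • (kk c Q * Q j)) =
        rp (Q i) * ((1 - (t : ℝ)) • g t + (t : ℝ) • (g t * kk c Q)) * Q j := by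
      simp only [mul_add, add_mul, mul_smul_comm, smul_mul_assoc, mul_assoc]
    rw [smul_mul_assoc, e, g2, kk_mul hw, rp_hh hQ hw, smul_mul_assoc, smul_smul,
      inv_mul_cancel₀ (hw.1 i).ne', one_smul]
  · intro i t
    change ((1 - (t : ℝ)) • Q i + (t : ℝ) • (kk c Q * Q i)) * Q i = _
    rw [add_mul, smul_mul_assoc, smul_mul_assoc, mul_assoc, hQ.idem]
    rfl
  · intro i t
    change Q i * ((c i)⁻¹ • (rp (Q i) * g t)) = (c i)⁻¹ • (rp (Q i) * g t)
    rw [mul_smul_comm, ← mul_assoc, mul_rp (hQ.idem i)]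
  · intro i
    change (1 - ((0 : I) : ℝ)) • Q i + ((0 : I) : ℝ) • (kk c Q * Q i) = _
    simp
  · intro i
    change (c i)⁻¹ • (rp (Q i) * g 0) = _
    rw [g0, kk_mul hw, rp_hh hQ hw, smul_smul, inv_mul_cancel₀ (hw.1 i).ne', one_smul]
  · intro i
    change (1 - ((1 : I) : ℝ)) • Q i + ((1 : I) : ℝ) • (kk c Q * Q i) = _
    simp [fA]
  · intro i
    change (c i)⁻¹ • (rp (Q i) * g 1) = _
    rw [g1]
    rfl

theorem fB_mul_fA (hQ : IdemFam Q) (hw : Wt c Q) (i j : ι) : fB c Q i * fA c Q j = Q i * Q j := by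
  obtain ⟨a, b, h1, -, -, -, -, h2, h3, -⟩ := idem_path hQ hw
  rw [← h2, ← h3, h1]

theorem fA_mul (hQ : IdemFam Q) (i : ι) : fA c Q i * Q i = fA c Q i := by
  unfold fA
  rw [mul_assoc, hQ.idem]

theorem mul_fB (hQ : IdemFam Q) (i : ι) : Q i * fB c Q i = fB c Q i := by
  unfold fB
  rw [mul_smul_comm, ← mul_assoc, mul_rp (hQ.idem i)]

theorem fA_mul_fB (hQ : IdemFam Q) (i : ι) :
    fA c Q i * fB c Q i = (c i)⁻¹ • (kk c Q * rp (Q i) * kk c Q) := by
  unfold fA fB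
  rw [mul_smul_comm, mul_assoc, ← mul_assoc (Q i), mul_rp (hQ.idem i), mul_assoc]

theorem star_fA_fB (hQ : IdemFam Q) (hw : Wt c Q) (i : ι) :
    star (fA c Q i * fB c Q i) = fA c Q i * fB c Q i := by
  rw [fA_mul_fB hQ, star_smul, star_mul, star_mul, (kk_pos hw).sa, rp_star (hQ.idem i),
    star_trivial, mul_assoc]

/-- The case of projections. -/
theorem kk_mul_proj (hQ : IdemFam Q) (hs : ∀ i, star (Q i) = Q i) (hw : Wt c Q) (i : ι) :
    kk c Q * Q i = Real.sqrt (c i) • Q i ∧ Q i * kk c Q = Real.sqrt (c i) • Q i := by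
  have h1 : hh c Q * Q i = c i • Q i := by rw [hh_mul hQ hw, hs, hQ.idem]
  have h2 : Q i * hh c Q = c i • Q i := by
    have := congrArg star h1
    rw [star_mul, hs, (hh_pos hw).sa, star_smul, hs, star_trivial] at this
    exact this
  have h3 : Q i * kk c Q = kk c Q * Q i := sq_comm (hh_pos hw) (by rw [h1, h2])
  have h4 : kk c Q * Q i = Real.sqrt (c i) • Q i := by
    apply sqrt_unique
    · obtain ⟨b, hb⟩ := kk_pos hw
      refine ⟨b * Q i, ?_⟩
      rw [star_mul, hs]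
      calc kk c Q * Q i = kk c Q * (Q i * Q i) := by rw [hQ.idem]
        _ = Q i * kk c Q * Q i := by rw [← mul_assoc, ← h3]
        _ = Q i * (star b * b) * Q i := by rw [hb]
        _ = Q i * star b * (b * Q i) := by simp only [mul_assoc]
    · have : Pos (Q i) := ⟨Q i, by rw [hs, hQ.idem]⟩
      exact this.smul (Real.sqrt_nonneg _)
    · calc kk c Q * Q i * (kk c Q * Q i) = kk c Q * (Q i * kk c Q) * Q i := by
            simp only [mul_assoc]
        _ = (kk c Q * kk c Q) * (Q i * Q i) := by rw [h3]; simp only [mul_assoc]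
        _ = c i • Q i := by rw [kk_mul hw, hQ.idem, h1]
        _ = Real.sqrt (c i) • Q i * Real.sqrt (c i) • Q i := by
            rw [smul_mul_smul_comm, Real.mul_self_sqrt (hw.1 i).le, hQ.idem]
  exact ⟨h4, by rw [h3, h4]⟩

theorem fA_proj (hQ : IdemFam Q) (hs : ∀ i, star (Q i) = Q i) (hw : Wt c Q) (i : ι) :
    fA c Q i = Real.sqrt (c i) • Q i := (kk_mul_proj hQ hs hw i).1

theorem fB_proj (hQ : IdemFam Q) (hs : ∀ i, star (Q i) = Q i) (hw : Wt c Q) (i : ι) :
    fB c Q i = (Real.sqrt (c i))⁻¹ • Q i := by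
  unfold fB
  rw [rp_self (hQ.idem i) (hs i), (kk_mul_proj hQ hs hw i).2, smul_smul]
  congr 1
  have h1 : 0 < Real.sqrt (c i) := Real.sqrt_pos.mpr (hw.1 i)
  have h2 : Real.sqrt (c i) * Real.sqrt (c i) = c i := Real.mul_self_sqrt (hw.1 i).le
  rw [inv_mul_eq_div, div_eq_iff (hw.1 i).ne', ← div_eq_inv_mul, eq_div_iff h1.ne', h2]

/-! ### Naturality -/

variable {C : Type*} [NonUnitalCStarAlgebra C]

theorem IdemFam.map (hQ : IdemFam Q) (f : B →⋆ₙₐ[ℂ] C) : IdemFam fun i => f (Q i) where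
  idem i := by rw [← map_mul, hQ.idem]
  orth i j h := by rw [← map_mul, hQ.orth i j h, map_zero]

theorem map_hh (hw : Wt c Q) (f : B →⋆ₙₐ[ℂ] C) : f (hh c Q) = hh c fun i => f (Q i) := by
  unfold hh
  have hc : Continuous f := AddMonoidHomClass.continuous_of_bound f 1 fun x => by
    rw [one_mul]
    exact NonUnitalStarAlgHom.norm_apply_le f x
  have := (hw.summable.hasSum.map f hc).tsum_eq
  rw [← this]
  apply tsum_congr
  intro i
  simp only [Function.comp_apply]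
  have h1 : ∀ (r : ℝ) (x : B), f (r • x) = r • f x := by
    intro r x
    rw [← Complex.coe_smul, map_smul, Complex.coe_smul]
  rw [h1, map_mul, map_star]

theorem Wt.map (hw : Wt c Q) (f : B →⋆ₙₐ[ℂ] C) : Wt c fun i => f (Q i) := by
  refine ⟨hw.1, Summable.of_nonneg_of_le (fun i => mul_nonneg (hw.1 i).le (sq_nonneg _))
    (fun i => ?_) hw.2⟩
  apply mul_le_mul_of_nonneg_left _ (hw.1 i).le
  exact pow_le_pow_left₀ (norm_nonneg _) (NonUnitalStarAlgHom.norm_apply_le f (Q i)) 2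

theorem map_kk (hw : Wt c Q) (f : B →⋆ₙₐ[ℂ] C) : f (kk c Q) = kk c fun i => f (Q i) := by
  unfold kk
  rw [map_sq f (hh_pos hw), map_hh hw]

theorem map_fA (hw : Wt c Q) (f : B →⋆ₙₐ[ℂ] C) (i : ι) :
    f (fA c Q i) = fA c (fun i => f (Q i)) i := by
  unfold fA
  rw [map_mul, map_kk hw]

theorem map_fB (hQ : IdemFam Q) (hw : Wt c Q) (f : B →⋆ₙₐ[ℂ] C) (i : ι) :
    f (fB c Q i) = fB c (fun i => f (Q i)) i := by
  unfold fB
  have h1 : ∀ (r : ℝ) (x : B), f (r • x) = r • f x := by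
    intro r x
    rw [← Complex.coe_smul, map_smul, Complex.coe_smul]
  rw [h1, map_mul, map_kk hw, map_rp f (hQ.idem i)]

/-- Weights exist. -/
theorem exists_wt [Countable ι] (Q : ι → B) : ∃ c : ι → ℝ, Wt c Q := by
  obtain ⟨e, he⟩ := exists_injective_nat ι
  refine ⟨fun i => (1 / 2) ^ (e i) / (1 + ‖Q i‖ ^ 2), fun i => by positivity, ?_⟩
  have h1 : Summable fun i => (1 / 2 : ℝ) ^ (e i) :=
    (summable_geometric_two).comp_injective he
  refine Summable.of_nonneg_of_le (fun i => by positivity) (fun i => ?_) h1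
  rw [div_mul_eq_mul_div, div_le_iff₀ (by positivity)]
  have : (0:ℝ) ≤ (1 / 2) ^ (e i) := by positivity
  nlinarith [sq_nonneg ‖Q i‖]

end

end Pool.Agent.Lib.MP_8f60dc_al
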