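import Pool.Agent.Lib.MP_8f60dc_al.Path
import Pool.Agent.Lib.MP_8f60dc_al.Graph
import Pool.Agent.Lib.MP_8f60dc_al.Ideals

/-!
# The homotopy equivalence
-/

set_option autoImplicit false

open scoped unitInterval Topology

namespace Pool.Agent.Lib.MP_8f60dc_al

noncomputable section

variable {E F : DGraph} {A B : Type} [NonUnitalCStarAlgebra A] [NonUnitalCStarAlgebra B]

theorem IsHomotopy.symm {f g : SHom A B} {H : I → SHom A B} (h : IsHomotopy H f g) :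
    IsHomotopy (fun t => H (unitInterval.symm t)) g f := by
  obtain ⟨hc, h0, h1⟩ := h
  refine ⟨fun a => ?_, ?_, ?_⟩
  · exact (hc a).comp unitInterval.continuous_symm
  · change H (unitInterval.symm 0) = g
    rw [unitInterval.symm_zero, h1]
  · change H (unitInterval.symm 1) = f
    rw [unitInterval.symm_one, h0]

/-- Nondegeneracy from the vertices. -/
theorem nondeg_of_nd {l : Fam E A} {f : SHom A B} (h : LS (l.map f).P = ⊤) : LS f = ⊤ :=
  top_le_LS h fun v x => LS_mem f (l.P v) x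

theorem nondeg_of_top {f : SHom A B} (h : LS f = ⊤) : Nondeg f := by
  intro b
  have : b ∈ LS f := by
    rw [h]
    trivial
  exact this

theorem nd_of_ck {l : Fam E B} (hl : ∀ v, star (l.P v) = l.P v) (h : LS l.P = ⊤) : ND l :=
  ⟨h, RS_top_of_LS hl h⟩

/-- A homomorphism with the same image as a nondegenerate one gives a nondegenerate family. -/
theorem nd_lpa {G : DGraph} {φ : LPA E →ₙₐ[ℂ] B} {ψ : LPA G →ₙₐ[ℂ] B}
    (h : ∀ y, ∃ x, ψ x = φ y) (hφ : ND ((lf E).map φ)) : ND ((lf G).map ψ) := by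
  constructor
  · apply top_le_LS hφ.left
    intro v x
    obtain ⟨y, hy⟩ := h ((lf E).P v)
    have h1 := lpa_left ψ y x
    rw [hy] at h1
    exact h1
  · apply top_le_RS hφ.right
    intro v x
    obtain ⟨y, hy⟩ := h ((lf E).P v)
    have h1 := lpa_right ψ y x
    rw [hy] at h1
    exact h1

theorem half [Countable E.V] [Countable E.Ed]
    {lA : Fam E A} {lB : Fam F B} (hA : IsGraphCStar E A lA)
    (Φ : LPA E →ₙₐ[ℂ] LPA F) (Ψ : LPA F →ₙₐ[ℂ] LPA E) (hΨΦ : ∀ x, Ψ (Φ x) = x)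
    (hΦΨ : ∀ x, Φ (Ψ x) = x)
    (jA : LPA E →ₙₐ[ℂ] A) (hjA : (lf E).map jA = lA)
    (jB : LPA F →ₙₐ[ℂ] B) (hjB : (lf F).map jB = lB)
    (π : A →⋆ₙₐ[ℂ] B) (ρ : B →⋆ₙₐ[ℂ] A) (hρ : LS ρ = ⊤)
    (h1 : LH ((lf E).map fun x => jB (Φ x)) (lA.map π))
    (h2 : LH ((lf F).map fun x => jA (Ψ x)) (lB.map ρ)) :
    ∃ H : I → SHom A A, IsHomotopy H (ρ.comp π) (NonUnitalStarAlgHom.id ℂ A) ∧
      ∀ t, Nondeg (H t) := by
  obtain ⟨L2, hL2, hN2, k0, k1⟩ := h2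
  -- the homomorphism defined by the path `L2`
  set θ : LPA F →ₙₐ[ℂ] C(I, A) := lLift hL2 with hθ
  have hθl : (lf F).map θ = L2 := lLift_lf hL2
  have t0 : ∀ x, θ x 0 = jA (Ψ x) := by
    intro x
    refine lpa_ext (f := ((evS (B := A) 0 : C(I, A) →⋆ₙₐ[ℂ] A) :
      C(I, A) →ₙₐ[ℂ] A).comp θ) (g := jA.comp Ψ) ?_ x
    have e1 : (lf F).map (((evS (B := A) 0 : C(I, A) →⋆ₙₐ[ℂ] A) :
        C(I, A) →ₙₐ[ℂ] A).comp θ) = ((lf F).map θ).map fun g : C(I, A) => g 0 := rfl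
    rw [e1, hθl, k0]
    rfl
  have t1 : ∀ x, θ x 1 = ρ (jB x) := by
    intro x
    refine lpa_ext (f := ((evS (B := A) 1 : C(I, A) →⋆ₙₐ[ℂ] A) :
      C(I, A) →ₙₐ[ℂ] A).comp θ) (g := (ρ : B →ₙₐ[ℂ] A).comp jB) ?_ x
    have e1 : (lf F).map (((evS (B := A) 1 : C(I, A) →⋆ₙₐ[ℂ] A) :
        C(I, A) →ₙₐ[ℂ] A).comp θ) = ((lf F).map θ).map fun g : C(I, A) => g 1 := rfl
    have e2 : (lf F).map ((ρ : B →ₙₐ[ℂ] A).comp jB) = ((lf F).map jB).map ρ := rfl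
    rw [e1, hθl, k1, e2, hjB]
  have hL3 : IsLeavitt ((lf E).map (θ.comp Φ)) := lf_leavitt.map (θ.comp Φ)
  have h3 : LH lA (((lf E).map fun x => jB (Φ x)).map ρ) := by
    refine ⟨_, hL3, ?_, ?_, ?_⟩
    · intro t
      have hNt := hN2 t
      rw [← hθl] at hNt
      refine nd_lpa (E := F) (G := E)
        (φ := ((evS (B := A) t : C(I, A) →⋆ₙₐ[ℂ] A) : C(I, A) →ₙₐ[ℂ] A).comp θ)
        (ψ := ((evS (B := A) t : C(I, A) →⋆ₙₐ[ℂ] A) : C(I, A) →ₙₐ[ℂ] A).comp (θ.comp Φ))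
        ?_ hNt
      intro y
      refine ⟨Ψ y, ?_⟩
      change θ (Φ (Ψ y)) t = θ y t
      rw [hΦΨ]
    · rw [← hjA]
      ext x
      · change θ (Φ ((lf E).P x)) 0 = jA ((lf E).P x)
        rw [t0, hΨΦ]
      · change θ (Φ ((lf E).S x)) 0 = jA ((lf E).S x)
        rw [t0, hΨΦ]
      · change θ (Φ ((lf E).T x)) 0 = jA ((lf E).T x)
        rw [t0, hΨΦ]
    · ext x
      · change θ (Φ ((lf E).P x)) 1 = ρ (jB (Φ ((lf E).P x)))
        rw [t1]
      · change θ (Φ ((lf E).S x)) 1 = ρ (jB (Φ ((lf E).S x)))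
        rw [t1]
      · change θ (Φ ((lf E).T x)) 1 = ρ (jB (Φ ((lf E).T x)))
        rw [t1]
  have h4 : LH lA ((lA.map π).map ρ) := h3.trans (h1.map ρ hρ)
  obtain ⟨K, hK, hKN, K0, K1⟩ := exists_ck_path hA.ck ((hA.ck.map π).map ρ) h4
  obtain ⟨H, hH, -⟩ := hA.univ C(I, A) K hK
  have hhom : IsHomotopy (fun t => (evS t).comp H) (NonUnitalStarAlgHom.id ℂ A)
      (ρ.comp π) := by
    refine ⟨fun a => (H a).continuous, ?_, ?_⟩
    · obtain ⟨_, _, hu⟩ := hA.univ A lA hA.ck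
      have e1 := hu ((evS 0).comp H) (by
        change (lA.map H).map (evS 0) = lA
        rw [hH, K0])
      have e2 := hu (NonUnitalStarAlgHom.id ℂ A) rfl
      exact e1.trans e2.symm
    · obtain ⟨_, _, hu⟩ := hA.univ A ((lA.map π).map ρ) ((hA.ck.map π).map ρ)
      have e1 := hu ((evS 1).comp H) (by
        change (lA.map H).map (evS 1) = _
        rw [hH, K1])
      have e2 := hu (ρ.comp π) rfl
      exact e1.trans e2.symm
  refine ⟨_, hhom.symm, fun t => nondeg_of_top (nondeg_of_nd (l := lA) ?_)⟩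
  have e : lA.map ((evS (unitInterval.symm t)).comp H) = K.map (evS (unitInterval.symm t)) := by
    rw [← hH]
    rfl
  change LS (lA.map ((evS (unitInterval.symm t)).comp H)).P = ⊤
  rw [e]
  exact (hKN _).left

/-- The path of algebra homomorphisms defined by a path of families. -/
theorem algHomotopic_of_LH {φ ψ : LPA E →ₙₐ[ℂ] B} (h : LH ((lf E).map φ) ((lf E).map ψ)) :
    AlgHomotopic (fun x => φ x) (fun x => ψ x) := by
  obtain ⟨L, hL, -, h0, h1⟩ := h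
  have hl : (lf E).map (lLift hL) = L := lLift_lf hL
  refine ⟨fun t => ((evS (B := B) t : C(I, B) →⋆ₙₐ[ℂ] B) : C(I, B) →ₙₐ[ℂ] B).comp (lLift hL),
    fun x => (lLift hL x).continuous, fun x => ?_, fun x => ?_⟩
  · apply lpa_ext
    have e : (lf E).map (((evS (B := B) 0 : C(I, B) →⋆ₙₐ[ℂ] B) : C(I, B) →ₙₐ[ℂ] B).comp
        (lLift hL)) = ((lf E).map (lLift hL)).map fun g : C(I, B) => g 0 := rfl
    exact e.trans ((congrArg _ hl).trans h0)
  · apply lpa_ext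
    have e : (lf E).map (((evS (B := B) 1 : C(I, B) →⋆ₙₐ[ℂ] B) : C(I, B) →ₙₐ[ℂ] B).comp
        (lLift hL)) = ((lf E).map (lLift hL)).map fun g : C(I, B) => g 1 := rfl
    exact e.trans ((congrArg _ hl).trans h1)

theorem AlgHomotopic.symm {φ ψ : LPA E → B} (h : AlgHomotopic φ ψ) : AlgHomotopic ψ φ := by
  obtain ⟨θ, hc, h0, h1⟩ := h
  refine ⟨fun t => θ (unitInterval.symm t), fun x => ?_, fun x => ?_, fun x => ?_⟩
  · exact (hc x).comp unitInterval.continuous_symm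
  · change θ (unitInterval.symm 0) x = ψ x
    rw [unitInterval.symm_zero, h1]
  · change θ (unitInterval.symm 1) x = φ x
    rw [unitInterval.symm_one, h0]

/-- Homotopic maps send an idempotent to idempotents which generate the same closed ideal. -/
theorem AlgHomotopic.mem {φ ψ : LPA E → B} (h : AlgHomotopic φ ψ) {J : Set B}
    (hJ : IsClosedIdeal J) {p : LPA E} (hp : p * p = p) (hm : ψ p ∈ J) : φ p ∈ J := by
  obtain ⟨θ, hc, h0, h1⟩ := h
  rw [← h1] at hm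
  rw [← h0]
  exact path_mem hJ (hc p) (fun t => by rw [← map_mul, hp]) hm 0

theorem ideal_homotopy {H : I → SHom A A} {f : SHom A A}
    (h : IsHomotopy H f (NonUnitalStarAlgHom.id ℂ A)) {X : Set A} (hX : ∀ p ∈ X, p * p = p)
    (t : I) : ∀ a ∈ Idl X, H t a ∈ Idl X := by
  have hJ := idl_closedIdeal X
  apply idl_min (hJ.comap (H t))
  intro p hp
  refine path_mem hJ (h.1 p) (fun s => by rw [← map_mul, hX p hp]) (s := 1) ?_ t
  rw [h.2.2]
  exact subset_idl X hp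

theorem main [Countable E.V] [Countable E.Ed] [Countable F.V] [Countable F.Ed]
    {lA : Fam E A} {lB : Fam F B} (hA : IsGraphCStar E A lA) (hB : IsGraphCStar F B lB)
    (Φ : LPA E →ₙₐ[ℂ] LPA F) (hΦ : Function.Bijective Φ) :
    ∃ (i : LPA E →ₙₐ[ℂ] A) (j : LPA F →ₙₐ[ℂ] B), (lf E).map i = lA ∧ (lf F).map j = lB ∧
      ∃ (f : SHom A B) (g : SHom B A) (H : I → SHom A A) (K : I → SHom B B),
        IsEquivalence f g H K ∧ AlgHomotopic (fun x => f (i x)) (fun x => j (Φ x)) ∧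
        ∀ X : Set (LPA E), (∀ p ∈ X, p * p = p) →
          Respects f g H K (Idl (i '' X)) (Idl (j '' (Φ '' X))) := by
  obtain ⟨ψ, hl, hr⟩ := Function.bijective_iff_has_inverse.mp hΦ
  set Ψ : LPA F →ₙₐ[ℂ] LPA E := Φ.inverse ψ hl hr with hΨ
  have h1 : ∀ x, Ψ (Φ x) = x := hl
  have h2 : ∀ x, Φ (Ψ x) = x := hr
  set jA : LPA E →ₙₐ[ℂ] A := lLift hA.ck.lv with hjA0
  have hjA : (lf E).map jA = lA := lLift_lf hA.ck.lv
  set jB : LPA F →ₙₐ[ℂ] B := lLift hB.ck.lv with hjB0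
  have hjB : (lf F).map jB = lB := lLift_lf hB.ck.lv
  have ndA : ND ((lf E).map jA) := by
    rw [hjA]
    exact nd_of_ck hA.ck.sa (nd_graph hA)
  have ndB : ND ((lf F).map jB) := by
    rw [hjB]
    exact nd_of_ck hB.ck.sa (nd_graph hB)
  have nd1 : ND ((lf E).map (jB.comp Φ)) :=
    nd_lpa (E := F) (G := E) (φ := jB) (ψ := jB.comp Φ)
      (fun y => ⟨Ψ y, congrArg jB (h2 y)⟩) ndB
  have nd2 : ND ((lf F).map (jA.comp Ψ)) :=
    nd_lpa (E := E) (G := F) (φ := jA) (ψ := jA.comp Ψ)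
      (fun y => ⟨Φ y, congrArg jA (h1 y)⟩) ndA
  obtain ⟨κ1, hκ1, p1⟩ := exists_ck (lf_leavitt.map (jB.comp Φ)) nd1
  obtain ⟨κ2, hκ2, p2⟩ := exists_ck (lf_leavitt.map (jA.comp Ψ)) nd2
  obtain ⟨π, hπ, -⟩ := hA.univ B κ1 hκ1
  obtain ⟨ρ, hρ, -⟩ := hB.univ A κ2 hκ2
  rw [← hπ] at p1
  rw [← hρ] at p2
  have nπ : LS π = ⊤ := nondeg_of_nd p1.nd_right.left
  have nρ : LS ρ = ⊤ := nondeg_of_nd p2.nd_right.left
  obtain ⟨H, hH, nH⟩ := half hA Φ Ψ h1 h2 jA hjA jB hjB π ρ nρ p1 p2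
  obtain ⟨K, hK, nK⟩ := half hB Ψ Φ h2 h1 jB hjB jA hjA ρ π nπ p2 p1
  -- compatibility with the algebra isomorphism
  have c1 : AlgHomotopic (fun x => jB (Φ x)) (fun x => π (jA x)) := by
    have e : lA.map π = (lf E).map ((π : A →ₙₐ[ℂ] B).comp jA) := by
      rw [← hjA]
      rfl
    rw [e] at p1
    exact algHomotopic_of_LH (φ := jB.comp Φ) (ψ := (π : A →ₙₐ[ℂ] B).comp jA) p1
  have c2 : AlgHomotopic (fun x => jA (Ψ x)) (fun x => ρ (jB x)) := by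
    have e : lB.map ρ = (lf F).map ((ρ : B →ₙₐ[ℂ] A).comp jB) := by
      rw [← hjB]
      rfl
    rw [e] at p2
    exact algHomotopic_of_LH (φ := jA.comp Ψ) (ψ := (ρ : B →ₙₐ[ℂ] A).comp jB) p2
  refine ⟨jA, jB, hjA, hjB, π, ρ, H, K, ⟨hH, hK, nondeg_of_top nπ, nondeg_of_top nρ, nH, nK⟩,
    c1.symm, fun X hX => ?_⟩
  have idA : ∀ p ∈ jA '' X, p * p = p := by
    rintro _ ⟨x, hx, rfl⟩
    rw [← map_mul, hX x hx]
  have idB : ∀ p ∈ jB '' (Φ '' X), p * p = p := by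
    rintro _ ⟨_, ⟨x, hx, rfl⟩, rfl⟩
    rw [← map_mul, ← map_mul, hX x hx]
  refine ⟨?_, ?_, ideal_homotopy hH idA, ideal_homotopy hK idB⟩
  · apply idl_min ((idl_closedIdeal (jB '' (Φ '' X))).comap π)
    rintro _ ⟨x, hx, rfl⟩
    exact c1.symm.mem (idl_closedIdeal _) (hX x hx)
      (subset_idl _ ⟨Φ x, ⟨x, hx, rfl⟩, rfl⟩)
  · apply idl_min ((idl_closedIdeal (jA '' X)).comap ρ)
    rintro _ ⟨_, ⟨x, hx, rfl⟩, rfl⟩
    have hp : Φ x * Φ x = Φ x := by rw [← map_mul, hX x hx]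
    refine c2.symm.mem (idl_closedIdeal _) hp ?_
    rw [h1]
    exact subset_idl _ ⟨x, hx, rfl⟩

end

end Pool.Agent.Lib.MP_8f60dc_al
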