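import Pool.Agent.Lib.MP_8f60dc_al.Idem

/-!
# Nondegeneracy
-/

set_option autoImplicit false

open scoped unitInterval Topology

namespace Pool.Agent.Lib.MP_8f60dc_al

noncomputable section

variable {B : Type*} [NonUnitalCStarAlgebra B] {ι κ : Type*}

/-- Closed span of the left multiples. -/
def LS (u : ι → B) : Submodule ℂ B :=
  (Submodule.span ℂ {y : B | ∃ i x, y = u i * x}).topologicalClosure

/-- Closed span of the right multiples. -/
def RS (u : ι → B) : Submodule ℂ B :=
  (Submodule.span ℂ {y : B | ∃ i x, y = x * u i}).topologicalClosure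

theorem LS_mem (u : ι → B) (i : ι) (x : B) : u i * x ∈ LS u :=
  Submodule.le_topologicalClosure _ (Submodule.subset_span ⟨i, x, rfl⟩)

theorem RS_mem (u : ι → B) (i : ι) (x : B) : x * u i ∈ RS u :=
  Submodule.le_topologicalClosure _ (Submodule.subset_span ⟨i, x, rfl⟩)

theorem LS_closed (u : ι → B) : IsClosed (LS u : Set B) :=
  Submodule.isClosed_topologicalClosure _

theorem RS_closed (u : ι → B) : IsClosed (RS u : Set B) :=
  Submodule.isClosed_topologicalClosure _

theorem LS_le {u : ι → B} {N : Submodule ℂ B} (hN : IsClosed (N : Set B))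
    (h : ∀ i x, u i * x ∈ N) : LS u ≤ N := by
  apply Submodule.topologicalClosure_minimal _ _ hN
  apply Submodule.span_le.mpr
  rintro y ⟨i, x, rfl⟩
  exact h i x

theorem RS_le {u : ι → B} {N : Submodule ℂ B} (hN : IsClosed (N : Set B))
    (h : ∀ i x, x * u i ∈ N) : RS u ≤ N := by
  apply Submodule.topologicalClosure_minimal _ _ hN
  apply Submodule.span_le.mpr
  rintro y ⟨i, x, rfl⟩
  exact h i x

/-- Preimage under a continuous linear map. -/
theorem top_comap {M N : Submodule ℂ B} (hM : M = ⊤) (T : B →L[ℂ] B)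
    (h : M ≤ (N.comap T.toLinearMap)) (x : B) : T x ∈ N := by
  have : x ∈ M := by
    rw [hM]
    trivial
  exact h this

theorem comap_closed {N : Submodule ℂ B} (T : B →L[ℂ] B) (hN : IsClosed (N : Set B)) :
    IsClosed ((N.comap T.toLinearMap : Submodule ℂ B) : Set B) :=
  hN.preimage T.continuous

theorem LS_map {u : ι → B} (hu : LS u = ⊤) (T : B →L[ℂ] B) {N : Submodule ℂ B}
    (hN : IsClosed (N : Set B)) (h : ∀ i x, T (u i * x) ∈ N) (x : B) : T x ∈ N :=
  top_comap hu T (LS_le (comap_closed T hN) h) x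

theorem RS_map {u : ι → B} (hu : RS u = ⊤) (T : B →L[ℂ] B) {N : Submodule ℂ B}
    (hN : IsClosed (N : Set B)) (h : ∀ i x, T (x * u i) ∈ N) (x : B) : T x ∈ N :=
  top_comap hu T (RS_le (comap_closed T hN) h) x

/-- The adjoint submodule. -/
def starSub (N : Submodule ℂ B) : Submodule ℂ B where
  carrier := {y | star y ∈ N}
  add_mem' {a b} ha hb := by
    change star (a + b) ∈ N
    rw [star_add]
    exact N.add_mem ha hb
  zero_mem' := by
    change star 0 ∈ N
    rw [star_zero]
    exact N.zero_mem
  smul_mem' c x hx := by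
    change star (c • x) ∈ N
    rw [star_smul]
    exact N.smul_mem _ hx

theorem starSub_closed {N : Submodule ℂ B} (hN : IsClosed (N : Set B)) :
    IsClosed ((starSub N : Submodule ℂ B) : Set B) :=
  hN.preimage continuous_star

theorem RS_top_of_LS {u w : ι → B} (huw : ∀ i, star (u i) = w i) (hu : LS u = ⊤) :
    RS w = ⊤ := by
  have h1 : LS u ≤ starSub (RS w) := by
    apply LS_le (starSub_closed (RS_closed w))
    intro i x
    change star (u i * x) ∈ RS w
    rw [star_mul, huw]
    exact RS_mem w i _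
  rw [eq_top_iff]
  intro z _
  have h2 : star z ∈ LS u := by
    rw [hu]
    trivial
  have h3 : star (star z) ∈ RS w := h1 h2
  rwa [star_star] at h3

theorem LS_top_of_RS {u w : ι → B} (huw : ∀ i, star (u i) = w i) (hu : RS u = ⊤) :
    LS w = ⊤ := by
  have h1 : RS u ≤ starSub (LS w) := by
    apply RS_le (starSub_closed (LS_closed w))
    intro i x
    change star (x * u i) ∈ LS w
    rw [star_mul, huw]
    exact LS_mem w i _
  rw [eq_top_iff]
  intro z _
  have h2 : star z ∈ RS u := by
    rw [hu]
    trivial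
  have h3 : star (star z) ∈ LS w := h1 h2
  rwa [star_star] at h3

theorem top_le_LS {u : ι → B} {w : κ → B} (hu : LS u = ⊤) (h : ∀ i x, u i * x ∈ LS w) :
    LS w = ⊤ := by
  rw [eq_top_iff, ← hu]
  exact LS_le (LS_closed w) h

theorem top_le_RS {u : ι → B} {w : κ → B} (hu : RS u = ⊤) (h : ∀ i x, x * u i ∈ RS w) :
    RS w = ⊤ := by
  rw [eq_top_iff, ← hu]
  exact RS_le (RS_closed w) h

/-- Left multiplication as a continuous linear map. -/
def lmul (y : B) : B →L[ℂ] B := ContinuousLinearMap.mul ℂ B y

/-- Right multiplication as a continuous linear map. -/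
def rmul (y : B) : B →L[ℂ] B := (ContinuousLinearMap.mul ℂ B).flip y

theorem lmul_apply (y x : B) : lmul y x = y * x := rfl

theorem rmul_apply (y x : B) : rmul y x = x * y := rfl

variable {c : ι → ℝ} {Q : ι → B}

theorem real_smul_mem {N : Submodule ℂ B} (r : ℝ) {x : B} (hx : x ∈ N) : r • x ∈ N := by
  have : r • x = (r : ℂ) • x := (Complex.coe_smul r x).symm
  rw [this]
  exact N.smul_mem _ hx

/-- Nondegeneracy along the path of similarities. -/
theorem nd_ab (hQ : IdemFam Q) (hw : Wt c Q) (hL : LS Q = ⊤) (hR : RS Q = ⊤)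
    {a b : ι → B} {t : ℝ} {g : B} (hba : ∀ i, b i * a i = Q i) (haQ : ∀ i, a i * Q i = a i)
    (hQb : ∀ i, Q i * b i = b i)
    (ha : ∀ i, a i = (1 - t) • Q i + t • (kk c Q * Q i))
    (hb : ∀ i, b i = (c i)⁻¹ • (rp (Q i) * g))
    (hg : (1 - t) • g + t • (g * kk c Q) = kk c Q * kk c Q)
    (hcomm : kk c Q * g = g * kk c Q) :
    LS (fun i => a i * b i) = ⊤ ∧ RS (fun i => a i * b i) = ⊤ := by
  set k := kk c Q with hk
  have hkk : k * k = hh c Q := kk_mul hw
  -- density of `B h`
  have hBh : ∀ (N : Submodule ℂ B), IsClosed (N : Set B) → (∀ x, x * hh c Q ∈ N) → N = ⊤ := by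
    intro N hN h
    rw [eq_top_iff, ← hR]
    apply RS_le hN
    intro i x
    have h1 : x * Q i = (c i)⁻¹ • ((x * rp (Q i)) * hh c Q) := by
      rw [mul_assoc, rp_hh hQ hw, mul_smul_comm, smul_smul, inv_mul_cancel₀ (hw.1 i).ne',
        one_smul]
    rw [h1]
    exact real_smul_mem _ (h _)
  have hhB : ∀ (N : Submodule ℂ B), IsClosed (N : Set B) → (∀ x, hh c Q * x ∈ N) → N = ⊤ := by
    intro N hN h
    have h1 : starSub N = ⊤ := by
      apply hBh _ (starSub_closed hN)
      intro x
      change star (x * hh c Q) ∈ N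
      rw [star_mul, (hh_pos hw).sa]
      exact h _
    rw [eq_top_iff]
    intro z _
    have h2 : star z ∈ starSub N := by
      rw [h1]
      trivial
    have h3 : star (star z) ∈ N := h2
    rwa [star_star] at h3
  constructor
  · apply hhB _ (LS_closed _)
    -- `(1 - t) x + t k x` lies in the span
    have h1 : ∀ x, (((1 - t : ℝ) : ℂ) • ContinuousLinearMap.id ℂ B + ((t : ℝ) : ℂ) • lmul k) x ∈
        LS (fun i => a i * b i) := by
      intro x
      apply LS_map hL _ (LS_closed _)
      intro i x
      have e1 : (((1 - t : ℝ) : ℂ) • ContinuousLinearMap.id ℂ B + ((t : ℝ) : ℂ) • lmul k)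
          (Q i * x) = a i * x := by
        change ((1 - t : ℝ) : ℂ) • (Q i * x) + ((t : ℝ) : ℂ) • (k * (Q i * x)) = a i * x
        rw [Complex.coe_smul, Complex.coe_smul, ha, add_mul, smul_mul_assoc, smul_mul_assoc,
          mul_assoc]
      have e2 : a i * x = (a i * b i) * (a i * x) := by
        calc a i * x = a i * Q i * x := by rw [haQ]
          _ = a i * (b i * a i) * x := by rw [hba]
          _ = _ := by simp only [mul_assoc]
      rw [e1, e2]
      exact LS_mem (fun i => a i * b i) i _
    intro x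
    have h2 : hh c Q * x = (1 - t) • (g * x) + t • (k * (g * x)) := by
      rw [← hkk, ← hg, add_mul, smul_mul_assoc, smul_mul_assoc, ← hcomm, mul_assoc]
    rw [h2]
    have h3 := h1 (g * x)
    change ((1 - t : ℝ) : ℂ) • (g * x) + ((t : ℝ) : ℂ) • (k * (g * x)) ∈ _ at h3
    rwa [Complex.coe_smul, Complex.coe_smul] at h3
  · apply hBh _ (RS_closed _)
    -- right multiples of `rp`
    have hrpL : LS (fun i => rp (Q i)) = ⊤ := by
      apply top_le_LS hL
      intro i x
      rw [← rp_mul (hQ.idem i), mul_assoc]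
      exact LS_mem (fun i => rp (Q i)) i _
    have hrpR : RS (fun i => rp (Q i)) = ⊤ :=
      RS_top_of_LS (fun i => rp_star (hQ.idem i)) hrpL
    have h1 : ∀ x, rmul g x ∈ RS (fun i => a i * b i) := by
      intro x
      apply RS_map hrpR _ (RS_closed _)
      intro i x
      have e1 : rmul g (x * rp (Q i)) = c i • (x * b i) := by
        rw [rmul_apply, hb, mul_smul_comm, smul_smul, mul_inv_cancel₀ (hw.1 i).ne', one_smul,
          mul_assoc]
      have e2 : x * b i = (x * b i) * (a i * b i) := by
        calc x * b i = x * (Q i * b i) := by rw [hQb]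
          _ = x * (b i * a i * b i) := by rw [hba]
          _ = _ := by simp only [mul_assoc]
      rw [e1, e2]
      exact real_smul_mem _ (RS_mem (fun i => a i * b i) i _)
    intro x
    have h2 : x * hh c Q = ((1 - t) • x + t • (x * k)) * g := by
      rw [← hkk, ← hg, mul_add, add_mul, mul_smul_comm, mul_smul_comm, smul_mul_assoc,
        smul_mul_assoc, ← hcomm, mul_assoc]
    rw [h2]
    exact h1 _

end

end Pool.Agent.Lib.MP_8f60dc_al
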