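import Pool.Agent.Lib.MP_8f60dc_al.St

/-!
# Naturality of the straightening, and its fixed points
-/

set_option autoImplicit false

open scoped unitInterval Topology

namespace Pool.Agent.Lib.MP_8f60dc_al

noncomputable section

section maps

variable {E : DGraph} {B C : Type*}
variable [NonUnitalCStarAlgebra B] [NonUnitalCStarAlgebra C]

theorem IsCK.map (f : B →⋆ₙₐ[ℂ] C) {l : Fam E B} (hl : IsCK l) : IsCK (l.map f) where
  lv := hl.lv.map f
  sa v := by
    change star (f (l.P v)) = f (l.P v)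
    rw [← map_star, hl.sa]
  st e := by
    change f (l.T e) = star (f (l.S e))
    rw [← map_star, hl.st]

theorem map_st1 (f : B →⋆ₙₐ[ℂ] C) {l : Fam E B} (hl : IsLeavitt l) {c : E.V → ℝ}
    (hw : Wt c l.P) : (st1 c l).map f = st1 c (l.map f) := by
  have hI := idemFam_P hl
  ext x
  · change f (fA c l.P x * fB c l.P x) = fA c (fun v => f (l.P v)) x * fB c (fun v => f (l.P v)) x
    rw [map_mul, map_fA hw, map_fB hI hw]
  · change f (fA c l.P (E.src x) * l.S x * fB c l.P (E.rng x)) =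
      fA c (fun v => f (l.P v)) (E.src x) * f (l.S x) * fB c (fun v => f (l.P v)) (E.rng x)
    rw [map_mul, map_mul, map_fA hw, map_fB hI hw]
  · change f (fA c l.P (E.rng x) * l.T x * fB c l.P (E.src x)) =
      fA c (fun v => f (l.P v)) (E.rng x) * f (l.T x) * fB c (fun v => f (l.P v)) (E.src x)
    rw [map_mul, map_mul, map_fA hw, map_fB hI hw]

theorem GG_map (f : B →⋆ₙₐ[ℂ] C) (l : Fam E B) : GG (l.map f) = fun e => f (GG l e) := by
  funext e
  exact (map_mul f _ _).symm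

theorem map_st2 (f : B →⋆ₙₐ[ℂ] C) {l : Fam E B} (hl : IsLeavitt l) {d : E.Ed → ℝ}
    (hw : Wt d (GG l)) : (st2 d l).map f = st2 d (l.map f) := by
  have hI := idemFam_GG hl
  ext x
  · rfl
  · change f (fA d (GG l) x * l.S x) = fA d (GG (l.map f)) x * f (l.S x)
    rw [map_mul, map_fA hw, GG_map]
  · change f (l.T x * fB d (GG l) x) = f (l.T x) * fB d (GG (l.map f)) x
    rw [map_mul, map_fB hI hw, GG_map]

theorem map_st3 (f : B →⋆ₙₐ[ℂ] C) (l : Fam E B) : (st3 l).map f = st3 (l.map f) := by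
  have h : ∀ e, f (sq (star (l.S e) * l.S e)) = sq (star (f (l.S e)) * f (l.S e)) := by
    intro e
    rw [map_sq f (Pos.star_mul_self _), map_mul, map_star]
  ext x
  · rfl
  · change f (l.S x * ((l.T x * star (l.T x)) * sq (star (l.S x) * l.S x))) =
      f (l.S x) * ((f (l.T x) * star (f (l.T x))) * sq (star (f (l.S x)) * f (l.S x)))
    rw [map_mul, map_mul, map_mul, map_star, h]
  · change f (sq (star (l.S x) * l.S x) * l.T x) = sq (star (f (l.S x)) * f (l.S x)) * f (l.T x)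
    rw [map_mul, h]

end maps

/-! ### Fixed points -/

section fixed

variable {E : DGraph} {B : Type*} [NonUnitalCStarAlgebra B]

/-- Rescaled family. -/
def scale (μ : E.Ed → ℝ) (l : Fam E B) : Fam E B :=
  ⟨l.P, fun e => μ e • l.S e, fun e => (μ e)⁻¹ • l.T e⟩

theorem st1_ck {l : Fam E B} (hl : IsCK l) {c : E.V → ℝ} (hw : Wt c l.P) :
    st1 c l = scale (fun e => Real.sqrt (c (E.src e)) * (Real.sqrt (c (E.rng e)))⁻¹) l := by
  have hI := idemFam_P hl.lv
  have hpos : ∀ v, 0 < Real.sqrt (c v) := fun v => Real.sqrt_pos.mpr (hw.1 v)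
  ext x
  · change fA c l.P x * fB c l.P x = l.P x
    rw [fA_proj hI hl.sa hw, fB_proj hI hl.sa hw, smul_mul_smul_comm,
      mul_inv_cancel₀ (hpos x).ne', one_smul, hl.lv.idem]
  · change fA c l.P (E.src x) * l.S x * fB c l.P (E.rng x) =
      (Real.sqrt (c (E.src x)) * (Real.sqrt (c (E.rng x)))⁻¹) • l.S x
    rw [fA_proj hI hl.sa hw, fB_proj hI hl.sa hw, smul_mul_assoc, hl.lv.ps, smul_mul_smul_comm,
      hl.lv.sp]
  · change fA c l.P (E.rng x) * l.T x * fB c l.P (E.src x) =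
      (Real.sqrt (c (E.src x)) * (Real.sqrt (c (E.rng x)))⁻¹)⁻¹ • l.T x
    rw [fA_proj hI hl.sa hw, fB_proj hI hl.sa hw, smul_mul_assoc, hl.lv.pt, smul_mul_smul_comm,
      hl.lv.tp, mul_inv, inv_inv, mul_comm]

theorem GG_scale {l : Fam E B} {μ : E.Ed → ℝ} (hμ : ∀ e, 0 < μ e) :
    GG (scale μ l) = GG l := by
  funext e
  change (μ e • l.S e) * ((μ e)⁻¹ • l.T e) = l.S e * l.T e
  rw [smul_mul_smul_comm, mul_inv_cancel₀ (hμ e).ne', one_smul]

theorem GG_ck {l : Fam E B} (hl : IsCK l) (e : E.Ed) : star (GG l e) = GG l e := by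
  change star (l.S e * l.T e) = l.S e * l.T e
  rw [hl.st, star_mul, star_star]

theorem st2_scale {l : Fam E B} (hl : IsCK l) {μ : E.Ed → ℝ} (hμ : ∀ e, 0 < μ e)
    {d : E.Ed → ℝ} (hw : Wt d (GG l)) :
    st2 d (scale μ l) = scale (fun e => Real.sqrt (d e) * μ e) l := by
  have hI := idemFam_GG hl.lv
  have hGS : ∀ e, GG l e * l.S e = l.S e := by
    intro e
    unfold GG
    rw [mul_assoc, hl.lv.ts, hl.lv.sp]
  have hTG : ∀ e, l.T e * GG l e = l.T e := by
    intro e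
    unfold GG
    rw [← mul_assoc, hl.lv.ts, hl.lv.pt]
  ext x
  · rfl
  · change fA d (GG (scale μ l)) x * (μ x • l.S x) = (Real.sqrt (d x) * μ x) • l.S x
    rw [GG_scale hμ, fA_proj hI (GG_ck hl) hw, smul_mul_smul_comm, hGS]
  · change ((μ x)⁻¹ • l.T x) * fB d (GG (scale μ l)) x = (Real.sqrt (d x) * μ x)⁻¹ • l.T x
    rw [GG_scale hμ, fB_proj hI (GG_ck hl) hw, smul_mul_smul_comm, hTG, mul_inv, mul_comm]

theorem st3_scale {l : Fam E B} (hl : IsCK l) {μ : E.Ed → ℝ} (hμ : ∀ e, 0 < μ e) :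
    st3 (scale μ l) = l := by
  have hP : ∀ e, star (l.S e) * l.S e = l.P (E.rng e) := fun e => by rw [← hl.st, hl.lv.ts]
  have hTT : ∀ e, l.T e * star (l.T e) = l.P (E.rng e) := fun e => by
    rw [hl.st, star_star, hP]
  have h1 : ∀ e, sq (star (μ e • l.S e) * (μ e • l.S e)) = μ e • l.P (E.rng e) := by
    intro e
    apply sq_eq
    · have : Pos (l.P (E.rng e)) := ⟨l.S e, (hP e).symm⟩
      exact this.smul (hμ e).le
    · rw [star_smul, smul_mul_smul_comm, smul_mul_smul_comm, star_trivial, hl.lv.idem, hP]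
  have h2 : ∀ e, ((μ e)⁻¹ • l.T e) * star ((μ e)⁻¹ • l.T e) =
      ((μ e)⁻¹ * (μ e)⁻¹) • l.P (E.rng e) := by
    intro e
    rw [star_smul, star_trivial, smul_mul_smul_comm, hTT]
  ext x
  · rfl
  · change (μ x • l.S x) * ((((μ x)⁻¹ • l.T x) * star ((μ x)⁻¹ • l.T x)) *
      sq (star (μ x • l.S x) * (μ x • l.S x))) = l.S x
    rw [h1, h2, smul_mul_smul_comm, hl.lv.idem, smul_mul_smul_comm, hl.lv.sp]
    have : μ x * ((μ x)⁻¹ * (μ x)⁻¹ * μ x) = 1 := by
      have := (hμ x).ne'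
      field_simp
    rw [this, one_smul]
  · change sq (star (μ x • l.S x) * (μ x • l.S x)) * ((μ x)⁻¹ • l.T x) = l.T x
    rw [h1, smul_mul_smul_comm, hl.lv.pt, mul_inv_cancel₀ (hμ x).ne', one_smul]

/-- Cuntz-Krieger families are fixed by the straightening. -/
theorem straight_ck {l : Fam E B} (hl : IsCK l) {c : E.V → ℝ} (hc : Wt c l.P)
    {d : E.Ed → ℝ} (hd : Wt d (GG (st1 c l))) : st3 (st2 d (st1 c l)) = l := by
  have hpos : ∀ v, 0 < Real.sqrt (c v) := fun v => Real.sqrt_pos.mpr (hc.1 v)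
  have hμ : ∀ e, 0 < (fun e => Real.sqrt (c (E.src e)) * (Real.sqrt (c (E.rng e)))⁻¹) e :=
    fun e => mul_pos (hpos _) (inv_pos.mpr (hpos _))
  rw [st1_ck hl hc] at hd ⊢
  rw [GG_scale hμ] at hd
  rw [st2_scale hl hμ hd]
  apply st3_scale hl
  intro e
  exact mul_pos (Real.sqrt_pos.mpr (hd.1 e)) (hμ e)

end fixed

end

end Pool.Agent.Lib.MP_8f60dc_al
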