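import Pool.Agent.Lib.MP_8f60dc_al.Nat

/-!
# Paths of Leavitt families
-/

set_option autoImplicit false

open scoped unitInterval Topology

namespace Pool.Agent.Lib.MP_8f60dc_al

noncomputable section

variable {E : DGraph} {B C : Type*} [NonUnitalCStarAlgebra B] [NonUnitalCStarAlgebra C]

/-- Evaluation at a point. -/
def evS (t : I) : C(I, B) →⋆ₙₐ[ℂ] B where
  toFun g := g t
  map_smul' _ _ := rfl
  map_zero' := rfl
  map_add' _ _ := rfl
  map_mul' _ _ := rfl
  map_star' _ := rfl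

@[simp] theorem evS_apply (t : I) (g : C(I, B)) : evS t g = g t := rfl

/-- Two families are joined by a path of nondegenerate Leavitt families. -/
def LH (l m : Fam E B) : Prop :=
  ∃ L : Fam E C(I, B), IsLeavitt L ∧ (∀ t : I, ND (L.map fun g : C(I, B) => g t)) ∧
    (L.map fun g : C(I, B) => g 0) = l ∧ (L.map fun g : C(I, B) => g 1) = m

theorem IsLeavitt.eval {L : Fam E C(I, B)} (hL : IsLeavitt L) (t : I) :
    IsLeavitt (L.map fun g : C(I, B) => g t) := hL.map (evS t)

theorem LH.left {l m : Fam E B} (h : LH l m) : IsLeavitt l := by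
  obtain ⟨L, hL, -, h0, -⟩ := h
  rw [← h0]
  exact hL.eval 0

theorem LH.right {l m : Fam E B} (h : LH l m) : IsLeavitt m := by
  obtain ⟨L, hL, -, -, h1⟩ := h
  rw [← h1]
  exact hL.eval 1

theorem LH.nd_left {l m : Fam E B} (h : LH l m) : ND l := by
  obtain ⟨L, -, hN, h0, -⟩ := h
  rw [← h0]
  exact hN 0

theorem LH.nd_right {l m : Fam E B} (h : LH l m) : ND m := by
  obtain ⟨L, -, hN, -, h1⟩ := h
  rw [← h1]
  exact hN 1

theorem LH.symm {l m : Fam E B} (h : LH l m) : LH m l := by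
  obtain ⟨L, hL, hN, h0, h1⟩ := h
  refine ⟨L.map fun g => g.comp ⟨unitInterval.symm, unitInterval.continuous_symm⟩, ?_, ?_,
    ?_, ?_⟩
  · apply isLeavitt_of_eval
    intro t
    exact hL.eval (unitInterval.symm t)
  · intro t
    exact hN (unitInterval.symm t)
  · rw [← h1]
    ext x
    · change L.P x (unitInterval.symm 0) = L.P x 1
      rw [unitInterval.symm_zero]
    · change L.S x (unitInterval.symm 0) = L.S x 1
      rw [unitInterval.symm_zero]
    · change L.T x (unitInterval.symm 0) = L.T x 1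
      rw [unitInterval.symm_zero]
  · rw [← h0]
    ext x
    · change L.P x (unitInterval.symm 1) = L.P x 0
      rw [unitInterval.symm_one]
    · change L.S x (unitInterval.symm 1) = L.S x 0
      rw [unitInterval.symm_one]
    · change L.T x (unitInterval.symm 1) = L.T x 0
      rw [unitInterval.symm_one]

/-- Concatenation. -/
def cat (g h : C(I, B)) (H : h 0 = g 1) : C(I, B) :=
  ((⟨g, rfl, rfl⟩ : Path (g 0) (g 1)).trans
    (⟨h, H, rfl⟩ : Path (g 1) (h 1))).toContinuousMap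

theorem cat_zero (g h : C(I, B)) (H : h 0 = g 1) : cat g h H 0 = g 0 :=
  ((⟨g, rfl, rfl⟩ : Path (g 0) (g 1)).trans (⟨h, H, rfl⟩ : Path (g 1) (h 1))).source

theorem cat_one (g h : C(I, B)) (H : h 0 = g 1) : cat g h H 1 = h 1 :=
  ((⟨g, rfl, rfl⟩ : Path (g 0) (g 1)).trans (⟨h, H, rfl⟩ : Path (g 1) (h 1))).target

theorem cat_of_le (g h : C(I, B)) (H : h 0 = g 1) (t : I) (ht : (t : ℝ) ≤ 1 / 2) :
    cat g h H t = g ⟨2 * t, (unitInterval.mul_pos_mem_iff zero_lt_two).2 ⟨t.2.1, ht⟩⟩ := by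
  change ((⟨g, rfl, rfl⟩ : Path (g 0) (g 1)).trans (⟨h, H, rfl⟩ : Path (g 1) (h 1))) t = _
  rw [Path.trans_apply, dif_pos ht]
  rfl

theorem cat_of_ge (g h : C(I, B)) (H : h 0 = g 1) (t : I) (ht : ¬ (t : ℝ) ≤ 1 / 2) :
    cat g h H t = h ⟨2 * t - 1, unitInterval.two_mul_sub_one_mem_iff.2
      ⟨(not_le.1 ht).le, t.2.2⟩⟩ := by
  change ((⟨g, rfl, rfl⟩ : Path (g 0) (g 1)).trans (⟨h, H, rfl⟩ : Path (g 1) (h 1))) t = _
  rw [Path.trans_apply, dif_neg ht]
  rfl

theorem LH.trans {l m n : Fam E B} (h : LH l m) (h' : LH m n) : LH l n := by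
  obtain ⟨L, hL, hLN, h0, h1⟩ := h
  obtain ⟨M, hM, hMN, k0, k1⟩ := h'
  have hP : ∀ v, M.P v 0 = L.P v 1 := fun v =>
    (congrFun (congrArg Fam.P k0) v).trans (congrFun (congrArg Fam.P h1) v).symm
  have hS : ∀ v, M.S v 0 = L.S v 1 := fun v =>
    (congrFun (congrArg Fam.S k0) v).trans (congrFun (congrArg Fam.S h1) v).symm
  have hT : ∀ v, M.T v 0 = L.T v 1 := fun v =>
    (congrFun (congrArg Fam.T k0) v).trans (congrFun (congrArg Fam.T h1) v).symm
  set C : Fam E C(I, B) := ⟨fun v => cat (L.P v) (M.P v) (hP v),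
    fun e => cat (L.S e) (M.S e) (hS e), fun e => cat (L.T e) (M.T e) (hT e)⟩ with hC
  have hCt : ∀ t : I, ∃ s : I, (C.map fun g : C(I, B) => g t) = (L.map fun g : C(I, B) => g s) ∨
      (C.map fun g : C(I, B) => g t) = (M.map fun g : C(I, B) => g s) := by
    intro t
    by_cases ht : (t : ℝ) ≤ 1 / 2
    · refine ⟨⟨2 * t, (unitInterval.mul_pos_mem_iff zero_lt_two).2 ⟨t.2.1, ht⟩⟩, Or.inl ?_⟩
      ext x
      · exact cat_of_le _ _ (hP x) t ht
      · exact cat_of_le _ _ (hS x) t ht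
      · exact cat_of_le _ _ (hT x) t ht
    · refine ⟨⟨2 * t - 1, unitInterval.two_mul_sub_one_mem_iff.2
              ⟨(not_le.1 ht).le, t.2.2⟩⟩, Or.inr ?_⟩
      ext x
      · exact cat_of_ge _ _ (hP x) t ht
      · exact cat_of_ge _ _ (hS x) t ht
      · exact cat_of_ge _ _ (hT x) t ht
  refine ⟨C, ?_, ?_, ?_, ?_⟩
  · apply isLeavitt_of_eval
    intro t
    obtain ⟨s, hs | hs⟩ := hCt t
    · rw [hs]
      exact hL.eval _
    · rw [hs]
      exact hM.eval _
  · intro t
    obtain ⟨s, hs | hs⟩ := hCt t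
    · rw [hs]
      exact hLN _
    · rw [hs]
      exact hMN _
  · rw [← h0]
    ext x
    · exact cat_zero _ _ (hP x)
    · exact cat_zero _ _ (hS x)
    · exact cat_zero _ _ (hT x)
  · rw [← k1]
    ext x
    · exact cat_one _ _ (hP x)
    · exact cat_one _ _ (hS x)
    · exact cat_one _ _ (hT x)

theorem cont_hom (f : B →⋆ₙₐ[ℂ] C) : Continuous f :=
  AddMonoidHomClass.continuous_of_bound f 1 fun x => by
    rw [one_mul]
    exact NonUnitalStarAlgHom.norm_apply_le f x

/-- A nondegenerate family is mapped to a nondegenerate family. -/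
theorem ND.map (f : B →⋆ₙₐ[ℂ] C) (hf : LS f = ⊤) {l : Fam E B} (hl : ND l) : ND (l.map f) := by
  have hfR : RS f = ⊤ := by
    have h : RS (fun b => f (star b)) = ⊤ := RS_top_of_LS (fun b => (map_star f b).symm) hf
    apply top_le_RS h
    intro b x
    exact RS_mem f (star b) x
  constructor
  · apply top_le_LS hf
    intro b x
    -- `f b * x` is in the closed span of `f (P v) * y`
    have h1 : LS l.P ≤ ((LS (l.map f).P).comap
        ((rmul x).toLinearMap ∘ₗ (⟨⟨f, map_add f⟩, fun r b => map_smul f r b⟩ : B →ₗ[ℂ] C))) := by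
      apply LS_le
      · exact (LS_closed (l.map f).P).preimage ((rmul x).continuous.comp (cont_hom f))
      · intro v y
        change f (l.P v * y) * x ∈ LS (l.map f).P
        rw [map_mul, mul_assoc]
        exact LS_mem (l.map f).P v _
    have h2 : b ∈ LS l.P := by
      rw [hl.left]
      trivial
    exact h1 h2
  · apply top_le_RS hfR
    intro b x
    have h1 : RS l.P ≤ ((RS (l.map f).P).comap
        ((lmul x).toLinearMap ∘ₗ (⟨⟨f, map_add f⟩, fun r b => map_smul f r b⟩ : B →ₗ[ℂ] C))) := by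
      apply RS_le
      · exact (RS_closed (l.map f).P).preimage ((lmul x).continuous.comp (cont_hom f))
      · intro v y
        change x * f (y * l.P v) ∈ RS (l.map f).P
        rw [map_mul, ← mul_assoc]
        exact RS_mem (l.map f).P v _
    have h2 : b ∈ RS l.P := by
      rw [hl.right]
      trivial
    exact h1 h2

theorem LH.map (f : B →⋆ₙₐ[ℂ] C) (hf : LS f = ⊤) {l m : Fam E B} (h : LH l m) :
    LH (l.map f) (m.map f) := by
  obtain ⟨L, hL, hN, h0, h1⟩ := h
  refine ⟨L.map fun g => (⟨f, cont_hom f⟩ : C(B, C)).comp g, ?_, ?_, ?_, ?_⟩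
  · apply isLeavitt_of_eval
    intro t
    exact (hL.eval t).map f
  · intro t
    exact (hN t).map f hf
  · rw [← h0]
    rfl
  · rw [← h1]
    rfl

/-- Every nondegenerate Leavitt family is joined to a Cuntz-Krieger family. -/
theorem exists_ck [Countable E.V] [Countable E.Ed] {l : Fam E B} (hl : IsLeavitt l)
    (hN : ND l) : ∃ κ : Fam E B, IsCK κ ∧ LH l κ := by
  obtain ⟨c, hc⟩ := exists_wt l.P
  have h1 : LH l (st1 c l) := st1_path hl hc hN
  have hs1 := st1_sa hl hc
  have hN1 := h1.nd_right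
  obtain ⟨d, hd⟩ := exists_wt (GG (st1 c l))
  obtain ⟨L2, hL2, hp2, a2, b2⟩ := st2_path h1.right hs1 hd
  have h2 : LH (st1 c l) (st2 d (st1 c l)) := by
    refine ⟨L2, hL2, fun t => ⟨?_, ?_⟩, a2, b2⟩
    · rw [hp2 t]
      exact hN1.left
    · rw [hp2 t]
      exact hN1.right
  have hs2 : ∀ v, star ((st2 d (st1 c l)).P v) = (st2 d (st1 c l)).P v := hs1
  obtain ⟨hck, L3, hL3, hp3, a3, b3⟩ := st3_path h2.right hs2 (GG_st2_sa h1.right hd)
  have h3 : LH (st2 d (st1 c l)) (st3 (st2 d (st1 c l))) := by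
    refine ⟨L3, hL3, fun t => ⟨?_, ?_⟩, a3, b3⟩
    · rw [hp3 t]
      exact hN1.left
    · rw [hp3 t]
      exact hN1.right
  exact ⟨_, hck, (h1.trans h2).trans h3⟩

/-- Two Cuntz-Krieger families joined by a path of Leavitt families are joined by a path of
Cuntz-Krieger families. -/
theorem exists_ck_path [Countable E.V] [Countable E.Ed] {l m : Fam E B} (hl : IsCK l)
    (hm : IsCK m) (h : LH l m) :
    ∃ K : Fam E C(I, B), IsCK K ∧ (∀ t : I, ND (K.map (evS t))) ∧ K.map (evS 0) = l ∧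
      K.map (evS 1) = m := by
  obtain ⟨L, hL, hN, h0, h1⟩ := h
  change L.map (evS 0) = l at h0
  change L.map (evS 1) = m at h1
  obtain ⟨c, hc⟩ := exists_wt L.P
  have hL1 : IsLeavitt (st1 c L) := st1_leavitt hL hc
  have hs1 := st1_sa hL hc
  obtain ⟨d, hd⟩ := exists_wt (GG (st1 c L))
  have hL2 : IsLeavitt (st2 d (st1 c L)) := by
    obtain ⟨M, hM, -, -, e⟩ := st2_path hL1 hs1 hd
    rw [← e]
    exact hM.eval 1
  have hs2 : ∀ v, star ((st2 d (st1 c L)).P v) = (st2 d (st1 c L)).P v := hs1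
  obtain ⟨hck, -⟩ := st3_path hL2 hs2 (GG_st2_sa hL1 hd)
  have key : ∀ t : I, (st3 (st2 d (st1 c L))).map (evS t) =
      st3 (st2 d (st1 c (L.map (evS t)))) := by
    intro t
    rw [map_st3, map_st2 _ hL1 hd, map_st1 _ hL hc]
  have wt1 : ∀ t : I, Wt c (L.map (evS t)).P := fun t => hc.map (evS t)
  have wt2 : ∀ t : I, Wt d (GG (st1 c (L.map (evS t)))) := by
    intro t
    rw [← map_st1 _ hL hc, GG_map]
    exact hd.map (evS t)
  refine ⟨_, hck, ?_, ?_, ?_⟩
  · intro t
    rw [key t]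
    have h2 : LH (L.map (evS t)) (st1 c (L.map (evS t))) :=
      st1_path (hL.eval t) (wt1 t) (hN t)
    exact ⟨h2.nd_right.left, h2.nd_right.right⟩
  · rw [key 0, h0]
    have h2 := wt2 0
    have h3 := wt1 0
    rw [h0] at h2 h3
    exact straight_ck hl h3 h2
  · rw [key 1, h1]
    have h2 := wt2 1
    have h3 := wt1 1
    rw [h1] at h2 h3
    exact straight_ck hm h3 h2

end

end Pool.Agent.Lib.MP_8f60dc_al
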