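import Pool.Agent.Lib.MP_8f60dc_al.Defs

/-!
# Algebraic similarity lemmas for Leavitt families
-/

set_option autoImplicit false

namespace Pool.Agent.Lib.MP_8f60dc_al

theorem IsLeavitt.map {E : DGraph} {B C : Type*} [NonUnitalRing B] [NonUnitalRing C]
    {F : Type*} [FunLike F B C]
    [NonUnitalRingHomClass F B C] (f : F) {l : Fam E B} (hl : IsLeavitt l) :
    IsLeavitt (l.map f) where
  idem v := by
    change f (l.P v) * f (l.P v) = f (l.P v)
    rw [← map_mul, hl.idem]
  orth v w h := by
    change f (l.P v) * f (l.P w) = 0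
    rw [← map_mul, hl.orth v w h, map_zero]
  ps e := by
    change f (l.P (E.src e)) * f (l.S e) = f (l.S e)
    rw [← map_mul, hl.ps]
  sp e := by
    change f (l.S e) * f (l.P (E.rng e)) = f (l.S e)
    rw [← map_mul, hl.sp]
  pt e := by
    change f (l.P (E.rng e)) * f (l.T e) = f (l.T e)
    rw [← map_mul, hl.pt]
  tp e := by
    change f (l.T e) * f (l.P (E.src e)) = f (l.T e)
    rw [← map_mul, hl.tp]
  ts e := by
    change f (l.T e) * f (l.S e) = f (l.P (E.rng e))
    rw [← map_mul, hl.ts]
  ts0 e e' h := by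
    change f (l.T e) * f (l.S e') = 0
    rw [← map_mul, hl.ts0 e e' h, map_zero]
  ck v s hs h := by
    change f (l.P v) = ∑ e ∈ s, f (l.S e) * f (l.T e)
    rw [hl.ck v s hs h, map_sum]
    exact Finset.sum_congr rfl fun e _ => map_mul f _ _

variable {E : DGraph} {R : Type*} [NonUnitalRing R] {l : Fam E R}

/-- Conjugation by vertex elements. -/
theorem sim_vertex (hl : IsLeavitt l) (a b : E.V → R)
    (hba : ∀ v w, b v * a w = l.P v * l.P w) (ha : ∀ v, a v * l.P v = a v) :
    IsLeavitt (⟨fun v => a v * b v, fun e => a (E.src e) * l.S e * b (E.rng e),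
      fun e => a (E.rng e) * l.T e * b (E.src e)⟩ : Fam E R) where
  idem v := by
    change a v * b v * (a v * b v) = a v * b v
    calc a v * b v * (a v * b v) = a v * (b v * a v) * b v := by simp only [mul_assoc]
      _ = a v * b v := by rw [hba, hl.idem, ha]
  orth v w h := by
    change a v * b v * (a w * b w) = 0
    calc a v * b v * (a w * b w) = a v * (b v * a w) * b w := by simp only [mul_assoc]
      _ = 0 := by rw [hba, hl.orth v w h, mul_zero, zero_mul]
  ps e := by
    change a (E.src e) * b (E.src e) * (a (E.src e) * l.S e * b (E.rng e)) = _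
    calc a (E.src e) * b (E.src e) * (a (E.src e) * l.S e * b (E.rng e))
        = a (E.src e) * (b (E.src e) * a (E.src e)) * l.S e * b (E.rng e) := by
          simp only [mul_assoc]
      _ = a (E.src e) * l.S e * b (E.rng e) := by rw [hba, hl.idem, ha]
  sp e := by
    change a (E.src e) * l.S e * b (E.rng e) * (a (E.rng e) * b (E.rng e)) = _
    calc a (E.src e) * l.S e * b (E.rng e) * (a (E.rng e) * b (E.rng e))
        = a (E.src e) * (l.S e * (b (E.rng e) * a (E.rng e))) * b (E.rng e) := by
          simp only [mul_assoc]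
      _ = a (E.src e) * l.S e * b (E.rng e) := by rw [hba, hl.idem, hl.sp]
  pt e := by
    change a (E.rng e) * b (E.rng e) * (a (E.rng e) * l.T e * b (E.src e)) = _
    calc a (E.rng e) * b (E.rng e) * (a (E.rng e) * l.T e * b (E.src e))
        = a (E.rng e) * (b (E.rng e) * a (E.rng e)) * l.T e * b (E.src e) := by
          simp only [mul_assoc]
      _ = a (E.rng e) * l.T e * b (E.src e) := by rw [hba, hl.idem, ha]
  tp e := by
    change a (E.rng e) * l.T e * b (E.src e) * (a (E.src e) * b (E.src e)) = _
    calc a (E.rng e) * l.T e * b (E.src e) * (a (E.src e) * b (E.src e))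
        = a (E.rng e) * (l.T e * (b (E.src e) * a (E.src e))) * b (E.src e) := by
          simp only [mul_assoc]
      _ = a (E.rng e) * l.T e * b (E.src e) := by rw [hba, hl.idem, hl.tp]
  ts e := by
    change a (E.rng e) * l.T e * b (E.src e) * (a (E.src e) * l.S e * b (E.rng e)) = _
    calc a (E.rng e) * l.T e * b (E.src e) * (a (E.src e) * l.S e * b (E.rng e))
        = a (E.rng e) * (l.T e * (b (E.src e) * a (E.src e)) * l.S e) * b (E.rng e) := by
          simp only [mul_assoc]
      _ = a (E.rng e) * b (E.rng e) := by rw [hba, hl.idem, hl.tp, hl.ts, ha]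
  ts0 e f h := by
    change a (E.rng e) * l.T e * b (E.src e) * (a (E.src f) * l.S f * b (E.rng f)) = 0
    calc a (E.rng e) * l.T e * b (E.src e) * (a (E.src f) * l.S f * b (E.rng f))
        = a (E.rng e) * (l.T e * (b (E.src e) * a (E.src f)) * l.S f) * b (E.rng f) := by
          simp only [mul_assoc]
      _ = a (E.rng e) * ((l.T e * l.P (E.src e)) * (l.P (E.src f) * l.S f)) * b (E.rng f) := by
          rw [hba]
          simp only [mul_assoc]
      _ = 0 := by rw [hl.tp, hl.ps, hl.ts0 e f h, mul_zero, zero_mul]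
  ck v s hs h := by
    change a v * b v = ∑ e ∈ s, (a (E.src e) * l.S e * b (E.rng e)) *
      (a (E.rng e) * l.T e * b (E.src e))
    have h1 : ∀ e ∈ s, (a (E.src e) * l.S e * b (E.rng e)) *
        (a (E.rng e) * l.T e * b (E.src e)) = a v * (l.S e * l.T e) * b v := by
      intro e he
      have hv : E.src e = v := (h e).mp he
      rw [hv]
      calc (a v * l.S e * b (E.rng e)) * (a (E.rng e) * l.T e * b v)
          = a v * (l.S e * (b (E.rng e) * a (E.rng e)) * l.T e) * b v := by
            simp only [mul_assoc]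
        _ = a v * (l.S e * l.T e) * b v := by rw [hba, hl.idem, hl.sp]
    rw [Finset.sum_congr rfl h1, ← Finset.sum_mul, ← Finset.mul_sum, ← hl.ck v s hs h, ha]

/-- Multiplication of the edges by elements of the range idempotents. -/
theorem sim_edge (hl : IsLeavitt l) (a b : E.Ed → R)
    (hba : ∀ e f, b e * a f = (l.S e * l.T e) * (l.S f * l.T f))
    (ha : ∀ e, a e * (l.S e * l.T e) = a e)
    (hpa : ∀ e, l.P (E.src e) * a e = a e) (hbp : ∀ e, b e * l.P (E.src e) = b e)
    (hsum : ∀ v (s : Finset E.Ed), s.Nonempty → (∀ e, e ∈ s ↔ E.src e = v) →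
      ∑ e ∈ s, a e * b e = l.P v) :
    IsLeavitt (⟨l.P, fun e => a e * l.S e, fun e => l.T e * b e⟩ : Fam E R) where
  idem := hl.idem
  orth := hl.orth
  ps e := by
    change l.P (E.src e) * (a e * l.S e) = a e * l.S e
    rw [← mul_assoc, hpa]
  sp e := by
    change a e * l.S e * l.P (E.rng e) = a e * l.S e
    rw [mul_assoc, hl.sp]
  pt e := by
    change l.P (E.rng e) * (l.T e * b e) = l.T e * b e
    rw [← mul_assoc, hl.pt]
  tp e := by
    change l.T e * b e * l.P (E.src e) = l.T e * b e
    rw [mul_assoc, hbp]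
  ts e := by
    change l.T e * b e * (a e * l.S e) = l.P (E.rng e)
    calc l.T e * b e * (a e * l.S e) = l.T e * (b e * a e) * l.S e := by simp only [mul_assoc]
      _ = (l.T e * l.S e) * (l.T e * l.S e) * (l.T e * l.S e) := by
          rw [hba]
          simp only [mul_assoc]
      _ = l.P (E.rng e) := by rw [hl.ts, hl.idem, hl.idem]
  ts0 e f h := by
    change l.T e * b e * (a f * l.S f) = 0
    calc l.T e * b e * (a f * l.S f) = l.T e * (b e * a f) * l.S f := by simp only [mul_assoc]
      _ = (l.T e * l.S e) * (l.T e * l.S f) * (l.T f * l.S f) := by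
          rw [hba]
          simp only [mul_assoc]
      _ = 0 := by rw [hl.ts0 e f h, mul_zero, zero_mul]
  ck v s hs h := by
    change l.P v = ∑ e ∈ s, (a e * l.S e) * (l.T e * b e)
    rw [← hsum v s hs h]
    apply Finset.sum_congr rfl
    intro e _
    calc a e * b e = a e * (l.S e * l.T e) * b e := by rw [ha]
      _ = (a e * l.S e) * (l.T e * b e) := by simp only [mul_assoc]

/-- Multiplication of the edges by invertible elements of the corner of the range vertex. -/
theorem sim_corner (hl : IsLeavitt l) (x y : E.Ed → R)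
    (hyx : ∀ e, y e * x e = l.P (E.rng e)) (hxy : ∀ e, x e * y e = l.P (E.rng e))
    (hxp : ∀ e, x e * l.P (E.rng e) = x e) (hyp : ∀ e, y e * l.P (E.rng e) = y e)
    (hpy : ∀ e, l.P (E.rng e) * y e = y e) :
    IsLeavitt (⟨l.P, fun e => l.S e * x e, fun e => y e * l.T e⟩ : Fam E R) where
  idem := hl.idem
  orth := hl.orth
  ps e := by
    change l.P (E.src e) * (l.S e * x e) = l.S e * x e
    rw [← mul_assoc, hl.ps]
  sp e := by
    change l.S e * x e * l.P (E.rng e) = l.S e * x e
    rw [mul_assoc, hxp]
  pt e := by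
    change l.P (E.rng e) * (y e * l.T e) = y e * l.T e
    rw [← mul_assoc, hpy]
  tp e := by
    change y e * l.T e * l.P (E.src e) = y e * l.T e
    rw [mul_assoc, hl.tp]
  ts e := by
    change y e * l.T e * (l.S e * x e) = l.P (E.rng e)
    calc y e * l.T e * (l.S e * x e) = y e * (l.T e * l.S e) * x e := by simp only [mul_assoc]
      _ = l.P (E.rng e) := by rw [hl.ts, hyp, hyx]
  ts0 e f h := by
    change y e * l.T e * (l.S f * x f) = 0
    calc y e * l.T e * (l.S f * x f) = y e * (l.T e * l.S f) * x f := by simp only [mul_assoc]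
      _ = 0 := by rw [hl.ts0 e f h, mul_zero, zero_mul]
  ck v s hs h := by
    change l.P v = ∑ e ∈ s, (l.S e * x e) * (y e * l.T e)
    rw [hl.ck v s hs h]
    apply Finset.sum_congr rfl
    intro e _
    calc l.S e * l.T e = l.S e * l.P (E.rng e) * l.T e := by rw [hl.sp]
      _ = l.S e * (x e * y e) * l.T e := by rw [hxy]
      _ = (l.S e * x e) * (y e * l.T e) := by simp only [mul_assoc]

end Pool.Agent.Lib.MP_8f60dc_al
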