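import Pool.Agent.Lib.MP_8f60dc_al.ND
import Pool.Agent.Lib.MP_8f60dc_al.Sim

/-!
# The straightening of a Leavitt family in a C*-algebra
-/

set_option autoImplicit false

open scoped unitInterval Topology

namespace Pool.Agent.Lib.MP_8f60dc_al

noncomputable section

variable {E : DGraph} {B : Type*} [NonUnitalCStarAlgebra B]

/-- Nondegenerate families. -/
structure ND {E : DGraph} {B : Type*} [NonUnitalCStarAlgebra B] (l : Fam E B) : Prop where
  left : LS l.P = ⊤
  right : RS l.P = ⊤

/-- First step: the vertices. -/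
def st1 (c : E.V → ℝ) (l : Fam E B) : Fam E B :=
  ⟨fun v => fA c l.P v * fB c l.P v,
    fun e => fA c l.P (E.src e) * l.S e * fB c l.P (E.rng e),
    fun e => fA c l.P (E.rng e) * l.T e * fB c l.P (E.src e)⟩

/-- Range idempotents of the edges. -/
def GG (l : Fam E B) (e : E.Ed) : B := l.S e * l.T e

/-- Second step: the range idempotents. -/
def st2 (d : E.Ed → ℝ) (l : Fam E B) : Fam E B :=
  ⟨l.P, fun e => fA d (GG l) e * l.S e, fun e => l.T e * fB d (GG l) e⟩

/-- Third step: polar decomposition. -/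
def st3 (l : Fam E B) : Fam E B :=
  ⟨l.P, fun e => l.S e * ((l.T e * star (l.T e)) * sq (star (l.S e) * l.S e)),
    fun e => sq (star (l.S e) * l.S e) * l.T e⟩

theorem isLeavitt_of_eval {L : Fam E C(I, B)}
    (h : ∀ t : I, IsLeavitt (L.map fun g : C(I, B) => g t)) : IsLeavitt L where
  idem v := ContinuousMap.ext fun t => (h t).idem v
  orth v w hvw := ContinuousMap.ext fun t => (h t).orth v w hvw
  ps e := ContinuousMap.ext fun t => (h t).ps e
  sp e := ContinuousMap.ext fun t => (h t).sp e
  pt e := ContinuousMap.ext fun t => (h t).pt e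
  tp e := ContinuousMap.ext fun t => (h t).tp e
  ts e := ContinuousMap.ext fun t => (h t).ts e
  ts0 e f hef := ContinuousMap.ext fun t => (h t).ts0 e f hef
  ck v s hs hv := ContinuousMap.ext fun t => by
    have := (h t).ck v s hs hv
    rw [ContinuousMap.sum_apply]
    exact this

theorem idemFam_P {l : Fam E B} (hl : IsLeavitt l) : IdemFam l.P := ⟨hl.idem, hl.orth⟩

theorem idemFam_GG {l : Fam E B} (hl : IsLeavitt l) : IdemFam (GG l) where
  idem e := by
    unfold GG
    calc l.S e * l.T e * (l.S e * l.T e) = l.S e * (l.T e * l.S e) * l.T e := by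
          simp only [mul_assoc]
      _ = l.S e * l.T e := by rw [hl.ts, hl.sp]
  orth e f h := by
    unfold GG
    calc l.S e * l.T e * (l.S f * l.T f) = l.S e * (l.T e * l.S f) * l.T f := by
          simp only [mul_assoc]
      _ = 0 := by rw [hl.ts0 e f h, mul_zero, zero_mul]

theorem st1_path {l : Fam E B} (hl : IsLeavitt l) {c : E.V → ℝ} (hw : Wt c l.P) (hN : ND l) :
    ∃ L : Fam E C(I, B), IsLeavitt L ∧ (∀ t : I, ND (L.map fun g : C(I, B) => g t)) ∧
      (L.map fun g : C(I, B) => g 0) = l ∧ (L.map fun g : C(I, B) => g 1) = st1 c l := by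
  obtain ⟨a, b, h1, h2, h3, h4, h5, h6, h7, h8, g, h9, h10, h11⟩ := idem_path (idemFam_P hl) hw
  refine ⟨⟨fun v => a v * b v,
    fun e => a (E.src e) * ContinuousMap.const I (l.S e) * b (E.rng e),
    fun e => a (E.rng e) * ContinuousMap.const I (l.T e) * b (E.src e)⟩, ?_, ?_, ?_, ?_⟩
  · apply isLeavitt_of_eval
    intro t
    exact sim_vertex hl (fun v => a v t) (fun v => b v t) (fun v w => h1 v w t)
      (fun v => h2 v t)
  · intro t
    have := nd_ab (idemFam_P hl) hw hN.left hN.right (a := fun v => a v t) (b := fun v => b v t)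
      (t := (t : ℝ)) (g := g t) (fun v => by rw [h1, hl.idem]) (fun v => h2 v t)
      (fun v => h3 v t) (fun v => h8 v t) (fun v => h9 v t) (h10 t) (h11 _ rfl t)
    exact ⟨this.1, this.2⟩
  · ext x
    · change a x 0 * b x 0 = l.P x
      rw [h4, h5, hl.idem]
    · change a (E.src x) 0 * l.S x * b (E.rng x) 0 = l.S x
      rw [h4, h5, hl.ps, hl.sp]
    · change a (E.rng x) 0 * l.T x * b (E.src x) 0 = l.T x
      rw [h4, h5, hl.pt, hl.tp]
  · ext x
    · change a x 1 * b x 1 = fA c l.P x * fB c l.P x
      rw [h6, h7]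
    · change a (E.src x) 1 * l.S x * b (E.rng x) 1 = fA c l.P (E.src x) * l.S x * fB c l.P (E.rng x)
      rw [h6, h7]
    · change a (E.rng x) 1 * l.T x * b (E.src x) 1 = fA c l.P (E.rng x) * l.T x * fB c l.P (E.src x)
      rw [h6, h7]

theorem st1_leavitt {l : Fam E B} (hl : IsLeavitt l) {c : E.V → ℝ} (hw : Wt c l.P) :
    IsLeavitt (st1 c l) :=
  sim_vertex hl _ _ (fB_mul_fA (idemFam_P hl) hw) (fA_mul (idemFam_P hl))

theorem st1_sa {l : Fam E B} (hl : IsLeavitt l) {c : E.V → ℝ} (hw : Wt c l.P) (v : E.V) :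
    star ((st1 c l).P v) = (st1 c l).P v :=
  star_fA_fB (idemFam_P hl) hw v

/-! ### The second step -/

/-- Commutation of the vertices with the positive element of the edges. -/
theorem P_comm {l : Fam E B} (hl : IsLeavitt l) (hs : ∀ v, star (l.P v) = l.P v)
    {d : E.Ed → ℝ} (hw : Wt d (GG l)) (v : E.V) :
    l.P v * kk d (GG l) = kk d (GG l) * l.P v := by
  classical
  apply sq_comm (hh_pos hw)
  unfold hh
  rw [← hw.summable.tsum_mul_left, ← hw.summable.tsum_mul_right]
  apply tsum_congr
  intro e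
  have h1 : l.P (E.src e) * GG l e = GG l e := by
    unfold GG
    rw [← mul_assoc, hl.ps]
  have h2 : GG l e * l.P (E.src e) = GG l e := by
    unfold GG
    rw [mul_assoc, hl.tp]
  have h3 : star (GG l e) * l.P (E.src e) = star (GG l e) := by
    have := congrArg star h1
    rwa [star_mul, hs] at this
  have h4 : l.P (E.src e) * star (GG l e) = star (GG l e) := by
    have := congrArg star h2
    rwa [star_mul, hs] at this
  by_cases hv : v = E.src e
  · subst hv
    rw [mul_smul_comm, smul_mul_assoc, ← mul_assoc, h4, mul_assoc, h2]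
  · have h5 : l.P v * star (GG l e) = 0 := by
      rw [← h4, ← mul_assoc, hl.orth v _ hv, zero_mul]
    have h6 : GG l e * l.P v = 0 := by
      rw [← h2, mul_assoc, hl.orth _ v (Ne.symm hv), mul_zero]
    rw [mul_smul_comm, smul_mul_assoc, ← mul_assoc, h5, mul_assoc, h6]
    simp

/-- The sum condition of the second step. -/
theorem sum_cond {l : Fam E B} (hl : IsLeavitt l) (hs : ∀ v, star (l.P v) = l.P v)
    {d : E.Ed → ℝ} (hw : Wt d (GG l)) {k g : B} (hk : k = kk d (GG l)) {t : ℝ}
    (hg : (1 - t) • g + t • (g * k) = k * k)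
    (hcomm : ∀ x, x * k = k * x → x * g = g * x)
    (v : E.V) (s : Finset E.Ed) (hne : s.Nonempty) (h : ∀ e, e ∈ s ↔ E.src e = v) :
    ∑ e ∈ s, ((1 - t) • GG l e + t • (k * GG l e)) * ((d e)⁻¹ • (rp (GG l e) * g)) = l.P v := by
  have hI := idemFam_GG hl
  set y : B := ∑ e ∈ s, (d e)⁻¹ • rp (GG l e) with hy
  have hP : l.P v = ∑ e ∈ s, GG l e := hl.ck v s hne h
  have hkk : k * k = hh d (GG l) := by rw [hk, kk_mul hw]
  -- y k² = P v
  have hyk : y * (k * k) = l.P v := by
    rw [hkk, hy, Finset.sum_mul, hP]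
    apply Finset.sum_congr rfl
    intro e _
    rw [smul_mul_assoc, rp_hh hI hw, smul_smul, inv_mul_cancel₀ (hw.1 e).ne', one_smul]
  have hky : (k * k) * y = l.P v := by
    have h1 := congrArg star hyk
    have hys : star y = y := by
      rw [hy, star_sum]
      apply Finset.sum_congr rfl
      intro e _
      rw [star_smul, rp_star (hI.idem e), star_trivial]
    have hks : star k = k := by rw [hk]; exact (kk_pos hw).sa
    rw [star_mul, star_mul, hks, hys, hs] at h1
    exact h1
  have hPk : l.P v * k = k * l.P v := by rw [hk]; exact P_comm hl hs hw v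
  have hPy : l.P v * y = y := by
    rw [hy, Finset.mul_sum]
    apply Finset.sum_congr rfl
    intro e he
    have hv : E.src e = v := (h e).mp he
    have h1 : l.P v * GG l e = GG l e := by
      rw [← hv]
      unfold GG
      rw [← mul_assoc, hl.ps]
    rw [mul_smul_comm, ← mul_rp (hI.idem e), ← mul_assoc, h1]
  have hyP : y * l.P v = y := by
    rw [← hky, ← mul_assoc, ← mul_assoc]
    calc y * k * k * y = y * (k * k) * y := by simp only [mul_assoc]
      _ = y := by rw [hyk, hPy]
  have hyk' : y * k = k * y := by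
    calc y * k = y * l.P v * k := by rw [hyP]
      _ = y * (k * l.P v) := by rw [mul_assoc, hPk]
      _ = y * (k * (k * k * y)) := by rw [hky]
      _ = (y * (k * k)) * (k * y) := by simp only [mul_assoc]
      _ = l.P v * (k * y) := by rw [hyk]
      _ = k * (l.P v * y) := by rw [← mul_assoc, hPk, mul_assoc]
      _ = k * y := by rw [hPy]
  have hyg : y * g = g * y := hcomm y hyk'
  have hkg : k * g = g * k := hcomm k rfl
  have hterm : ∀ e ∈ s, ((1 - t) • GG l e + t • (k * GG l e)) * ((d e)⁻¹ • (rp (GG l e) * g)) =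
      (1 - t) • (((d e)⁻¹ • rp (GG l e)) * g) + t • (k * (((d e)⁻¹ • rp (GG l e)) * g)) := by
    intro e _
    rw [add_mul, smul_mul_assoc, smul_mul_assoc, mul_smul_comm, mul_smul_comm, mul_assoc k,
      ← mul_assoc (GG l e), mul_rp (hI.idem e), smul_mul_assoc, mul_smul_comm]
  rw [Finset.sum_congr rfl hterm, Finset.sum_add_distrib, ← Finset.smul_sum, ← Finset.smul_sum,
    ← Finset.mul_sum, ← Finset.sum_mul, ← hy]
  calc (1 - t) • (y * g) + t • (k * (y * g))
      = y * ((1 - t) • g + t • (g * k)) := by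
        rw [mul_add, mul_smul_comm, mul_smul_comm, ← mul_assoc k, ← hyk', mul_assoc y, hkg]
    _ = l.P v := by rw [hg, hyk]

theorem st2_path {l : Fam E B} (hl : IsLeavitt l) (hs : ∀ v, star (l.P v) = l.P v)
    {d : E.Ed → ℝ} (hw : Wt d (GG l)) :
    ∃ L : Fam E C(I, B), IsLeavitt L ∧ (∀ t : I, (L.map fun g : C(I, B) => g t).P = l.P) ∧
      (L.map fun g : C(I, B) => g 0) = l ∧ (L.map fun g : C(I, B) => g 1) = st2 d l := by
  have hI := idemFam_GG hl
  obtain ⟨a, b, h1, h2, h3, h4, h5, h6, h7, h8, g, h9, h10, h11⟩ := idem_path hI hw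
  refine ⟨⟨fun v => ContinuousMap.const I (l.P v),
    fun e => a e * ContinuousMap.const I (l.S e),
    fun e => ContinuousMap.const I (l.T e) * b e⟩, ?_, fun t => rfl, ?_, ?_⟩
  · apply isLeavitt_of_eval
    intro t
    refine sim_edge hl (fun e => a e t) (fun e => b e t) (fun e f => h1 e f t)
      (fun e => h2 e t) (fun e => ?_) (fun e => ?_) (fun v s hne h => ?_)
    · have e1 : l.P (E.src e) * GG l e = GG l e := by
        unfold GG
        rw [← mul_assoc, hl.ps]
      rw [h8, mul_add, mul_smul_comm, mul_smul_comm, e1, ← mul_assoc, P_comm hl hs hw,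
        mul_assoc, e1]
    · have e1 : rp (GG l e) * l.P (E.src e) = rp (GG l e) := by
        have e2 : l.P (E.src e) * rp (GG l e) = rp (GG l e) := by
          rw [← mul_rp (hI.idem e), ← mul_assoc]
          congr 1
          unfold GG
          rw [← mul_assoc, hl.ps]
        have := congrArg star e2
        rwa [star_mul, rp_star (hI.idem e), hs] at this
      rw [h9, smul_mul_assoc, mul_assoc, ← h11 _ (P_comm hl hs hw _) t, ← mul_assoc, e1]
    · have := sum_cond hl hs hw rfl (h10 t) (fun x hx => h11 x hx t) v s hne h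
      rw [← this]
      apply Finset.sum_congr rfl
      intro e _
      rw [h8, h9]
  · ext x
    · rfl
    · change a x 0 * l.S x = l.S x
      rw [h4]
      unfold GG
      rw [mul_assoc, hl.ts, hl.sp]
    · change l.T x * b x 0 = l.T x
      rw [h5]
      unfold GG
      rw [← mul_assoc, hl.ts, hl.pt]
  · ext x
    · rfl
    · change a x 1 * l.S x = fA d (GG l) x * l.S x
      rw [h6]
    · change l.T x * b x 1 = l.T x * fB d (GG l) x
      rw [h7]

theorem GG_st2 {l : Fam E B} (hl : IsLeavitt l) {d : E.Ed → ℝ} (e : E.Ed) :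
    GG (st2 d l) e = fA d (GG l) e * fB d (GG l) e := by
  have hI := idemFam_GG hl
  change (fA d (GG l) e * l.S e) * (l.T e * fB d (GG l) e) = _
  calc (fA d (GG l) e * l.S e) * (l.T e * fB d (GG l) e)
      = (fA d (GG l) e * GG l e) * fB d (GG l) e := by
        unfold GG
        simp only [mul_assoc]
    _ = _ := by rw [fA_mul hI]

theorem GG_st2_sa {l : Fam E B} (hl : IsLeavitt l) {d : E.Ed → ℝ} (hw : Wt d (GG l))
    (e : E.Ed) : star (GG (st2 d l) e) = GG (st2 d l) e := by
  rw [GG_st2 hl]
  exact star_fA_fB (idemFam_GG hl) hw e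

/-! ### The third step -/

/-- Data of the third step for one edge. -/
theorem polar_data {l : Fam E B} (hl : IsLeavitt l) (hs : ∀ v, star (l.P v) = l.P v)
    (hg : ∀ e, star (GG l e) = GG l e) (e : E.Ed) :
    (star (l.S e) * l.S e) * (l.T e * star (l.T e)) = l.P (E.rng e) ∧
      (l.T e * star (l.T e)) * (star (l.S e) * l.S e) = l.P (E.rng e) ∧
      (l.T e * star (l.T e)) * star (l.S e) = l.T e ∧
      l.S e * (l.T e * star (l.T e)) = star (l.T e) := by
  have h1 : star (l.T e) * star (l.S e) = GG l e := by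
    rw [← star_mul]
    exact hg e
  have h2 : star (l.S e) * star (l.T e) = l.P (E.rng e) := by
    rw [← star_mul, hl.ts, hs]
  have h3 : l.T e * GG l e = l.T e := by
    unfold GG
    rw [← mul_assoc, hl.ts, hl.pt]
  have h4 : GG l e * star (l.T e) = star (l.T e) := by
    have := congrArg star h3
    rwa [star_mul, hg] at this
  have h5 : GG l e * l.S e = l.S e := by
    unfold GG
    rw [mul_assoc, hl.ts, hl.sp]
  refine ⟨?_, ?_, ?_, ?_⟩
  · calc (star (l.S e) * l.S e) * (l.T e * star (l.T e))
        = star (l.S e) * (GG l e * star (l.T e)) := by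
          unfold GG
          simp only [mul_assoc]
      _ = l.P (E.rng e) := by rw [h4, h2]
  · calc (l.T e * star (l.T e)) * (star (l.S e) * l.S e)
        = l.T e * (star (l.T e) * star (l.S e)) * l.S e := by simp only [mul_assoc]
      _ = l.P (E.rng e) := by rw [h1, h3, hl.ts]
  · rw [mul_assoc, h1, h3]
  · rw [← mul_assoc]
    exact h4

theorem st3_path {l : Fam E B} (hl : IsLeavitt l) (hs : ∀ v, star (l.P v) = l.P v)
    (hg : ∀ e, star (GG l e) = GG l e) :
    IsCK (st3 l) ∧ ∃ L : Fam E C(I, B), IsLeavitt L ∧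
      (∀ t : I, (L.map fun g : C(I, B) => g t).P = l.P) ∧
      (L.map fun g : C(I, B) => g 0) = l ∧ (L.map fun g : C(I, B) => g 1) = st3 l := by
  set m : E.Ed → B := fun e => star (l.S e) * l.S e with hm
  set n : E.Ed → B := fun e => l.T e * star (l.T e) with hn
  set a : E.Ed → B := fun e => sq (m e) with ha
  have hmp : ∀ e, Pos (m e) := fun e => Pos.star_mul_self _
  have hap : ∀ e, Pos (a e) := fun e => sq_pos (hmp e)
  have haa : ∀ e, a e * a e = m e := fun e => sq_mul (hmp e)
  have hmn : ∀ e, m e * n e = l.P (E.rng e) := fun e => (polar_data hl hs hg e).1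
  have hnm : ∀ e, n e * m e = l.P (E.rng e) := fun e => (polar_data hl hs hg e).2.1
  have hnS : ∀ e, n e * star (l.S e) = l.T e := fun e => (polar_data hl hs hg e).2.2.1
  have hna : ∀ e, n e * a e = a e * n e := fun e => sq_comm (hmp e) (by rw [hmn, hnm])
  have hSP : ∀ e, l.P (E.rng e) * star (l.S e) = star (l.S e) := by
    intro e
    have := congrArg star (hl.sp e)
    rwa [star_mul, hs] at this
  have hPm : ∀ e, l.P (E.rng e) * m e = m e := by
    intro e
    rw [hm]
    simp only
    rw [← mul_assoc, hSP]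
  have hmP : ∀ e, m e * l.P (E.rng e) = m e := by
    intro e
    rw [hm]
    simp only
    rw [mul_assoc, hl.sp]
  have hPa' : ∀ e, l.P (E.rng e) * a e = a e * l.P (E.rng e) := fun e =>
    sq_comm (hmp e) (by rw [hPm, hmP])
  have hPn : ∀ e, l.P (E.rng e) * n e = n e := by
    intro e
    rw [hn]
    simp only
    rw [← mul_assoc, hl.pt]
  have hnP : ∀ e, n e * l.P (E.rng e) = n e := by
    intro e
    have := congrArg star (hPn e)
    rw [star_mul, hs] at this
    have hns : star (n e) = n e := by
      rw [hn]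
      simp
    rwa [hns] at this
  -- a P = a
  have haP : ∀ e, a e * l.P (E.rng e) = a e := by
    intro e
    have h1 : (a e * l.P (E.rng e)) = a e := by
      apply sqrt_unique
      · obtain ⟨b, hb⟩ := hap e
        refine ⟨b * l.P (E.rng e), ?_⟩
        rw [star_mul, hs]
        calc a e * l.P (E.rng e) = a e * (l.P (E.rng e) * l.P (E.rng e)) := by rw [hl.idem]
          _ = l.P (E.rng e) * a e * l.P (E.rng e) := by rw [← mul_assoc, ← hPa']
          _ = l.P (E.rng e) * (star b * b) * l.P (E.rng e) := by rw [hb]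
          _ = _ := by simp only [mul_assoc]
      · exact hap e
      · calc a e * l.P (E.rng e) * (a e * l.P (E.rng e))
            = a e * (l.P (E.rng e) * a e) * l.P (E.rng e) := by simp only [mul_assoc]
          _ = (a e * a e) * (l.P (E.rng e) * l.P (E.rng e)) := by
              rw [hPa']
              simp only [mul_assoc]
          _ = a e * a e := by rw [hl.idem, haa, hmP]
    exact h1
  have hPa : ∀ e, l.P (E.rng e) * a e = a e := fun e => by rw [hPa', haP]
  have hpath := fun e => exists_path (hap e)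
  choose g g0 g1 g2 g3 using hpath
  have hgn : ∀ e t, n e * g e t = g e t * n e := fun e t => g3 e _ (hna e) t
  have hgP : ∀ e t, l.P (E.rng e) * g e t = g e t * l.P (E.rng e) :=
    fun e t => g3 e _ (hPa' e) t
  have hga : ∀ e t, a e * g e t = g e t * a e := fun e t => g3 e _ rfl t
  have hmain : ∀ t : I, IsLeavitt (⟨l.P, fun e => l.S e * (n e * g e t),
      fun e => ((1 - (t : ℝ)) • l.P (E.rng e) + (t : ℝ) • a e) * l.T e⟩ : Fam E B) := by
    intro t
    have hkey : ∀ e, g e t * ((1 - (t : ℝ)) • l.P (E.rng e) + (t : ℝ) • a e) * n e =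
        l.P (E.rng e) := by
      intro e
      calc g e t * ((1 - (t : ℝ)) • l.P (E.rng e) + (t : ℝ) • a e) * n e
          = ((1 - (t : ℝ)) • g e t + (t : ℝ) • (g e t * a e)) * n e := by
            rw [mul_add, mul_smul_comm, mul_smul_comm, add_mul, smul_mul_assoc,
              mul_assoc, hPn, add_mul, smul_mul_assoc, smul_mul_assoc]
        _ = l.P (E.rng e) := by rw [g2, haa, hmn]
    refine sim_corner hl (fun e => n e * g e t)
      (fun e => (1 - (t : ℝ)) • l.P (E.rng e) + (t : ℝ) • a e) ?_ ?_ ?_ ?_ ?_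
    · intro e
      calc ((1 - (t : ℝ)) • l.P (E.rng e) + (t : ℝ) • a e) * (n e * g e t)
          = g e t * ((1 - (t : ℝ)) • l.P (E.rng e) + (t : ℝ) • a e) * n e := by
            rw [hgn, ← mul_assoc]
            congr 1
            rw [add_mul, mul_add, smul_mul_assoc, smul_mul_assoc, mul_smul_comm, mul_smul_comm,
              hgP, hga]
        _ = _ := hkey e
    · intro e
      calc (n e * g e t) * ((1 - (t : ℝ)) • l.P (E.rng e) + (t : ℝ) • a e)
          = g e t * (n e * ((1 - (t : ℝ)) • l.P (E.rng e) + (t : ℝ) • a e)) := by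
            rw [hgn, mul_assoc]
        _ = g e t * (((1 - (t : ℝ)) • l.P (E.rng e) + (t : ℝ) • a e) * n e) := by
            rw [add_mul, mul_add, smul_mul_assoc, smul_mul_assoc, mul_smul_comm, mul_smul_comm,
              hPn, hnP, hna]
        _ = g e t * ((1 - (t : ℝ)) • l.P (E.rng e) + (t : ℝ) • a e) * n e := by
            rw [mul_assoc]
        _ = _ := hkey e
    · intro e
      rw [mul_assoc, ← hgP, ← mul_assoc, hnP]
    · intro e
      rw [add_mul, smul_mul_assoc, smul_mul_assoc, hl.idem, haP]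
    · intro e
      rw [mul_add, mul_smul_comm, mul_smul_comm, hl.idem, hPa]
  have hend : (⟨l.P, fun e => l.S e * (n e * g e 1),
      fun e => ((1 - ((1 : I) : ℝ)) • l.P (E.rng e) + ((1 : I) : ℝ) • a e) * l.T e⟩ : Fam E B) =
      st3 l := by
    ext x
    · rfl
    · change l.S x * (n x * g x 1) = _
      rw [g1]
      rfl
    · change ((1 - ((1 : I) : ℝ)) • l.P (E.rng x) + ((1 : I) : ℝ) • a x) * l.T x = _
      simp [st3, ha, hm]
  refine ⟨⟨?_, hs, ?_⟩, ⟨fun v => ContinuousMap.const I (l.P v),
    fun e => ContinuousMap.const I (l.S e) * (ContinuousMap.const I (n e) * g e),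
    fun e => (⟨fun t => (1 - (t : ℝ)) • l.P (E.rng e) + (t : ℝ) • a e, by fun_prop⟩ : C(I, B)) *
      ContinuousMap.const I (l.T e)⟩, ?_, fun t => rfl, ?_, ?_⟩
  · have := hmain 1
    rw [hend] at this
    exact this
  · intro e
    change a e * l.T e = star (l.S e * (n e * a e))
    have hns : star (n e) = n e := by
      rw [hn]
      simp
    rw [star_mul, star_mul, hns, (hap e).sa, mul_assoc, hnS]
  · exact isLeavitt_of_eval hmain
  · ext x
    · rfl
    · change l.S x * (n x * g x 0) = l.S x
      rw [g0, haa, hnm, hl.sp]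
    · change ((1 - ((0 : I) : ℝ)) • l.P (E.rng x) + ((0 : I) : ℝ) • a x) * l.T x = l.T x
      simp [hl.pt]
  · exact hend

end

end Pool.Agent.Lib.MP_8f60dc_al
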